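import Pool.Agent.N155.L.Omn
import Pool.Agent.Q96.LS.Cur
import Pool.Agent.TH143.LG.Laur

/-!
# Open algebraic curves which are not of logarithmic general type

Let `y` be the generic point of an algebraic curve in projective space. If the curve without the
zeros of some forms is not of logarithmic general type (and is not projective), there is a
nonconstant algebraic map from the punctured line to it.
-/

set_option autoImplicit false

namespace Pool.Agent.K9h3.KH

open FF MvPolynomial Pool.Agent.W602.GT Pool.Agent.N155 Pool.Agent.W603.LV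
open scoped IntermediateField

variable {n : ℕ} {K : Type} [Field K] [Algebra ℂ K]

theorem lgt_mono {w : ℕ} {B B' : Place ℂ K → Prop} (h : ∀ P, B P → B' P)
    (hl : LogGeneralType ℂ K w B) : LogGeneralType ℂ K w B' := by
  obtain ⟨h1, N, hN, ω, h2, h3, h4, h5⟩ := hl
  exact ⟨h1, N, hN, ω, h2, h3, fun P hP hB j => h4 P hP (fun hb => hB (h P hb)) j, h5⟩

theorem exists_pole [IsFF ℂ K] {f : K} (hf : Transcendental ℂ f) : ∃ P : Place ℂ K, P.ord f < 0 := by
  have hfi : Transcendental ℂ f⁻¹ := fun h => hf (by simpa using h.inv)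
  obtain ⟨S, hS, -, hsum⟩ := zeros (k := ℂ) hfi
  have hfin := IsFF.finite hfi
  have h1 : 0 < Module.finrank (IntermediateField.adjoin ℂ {f⁻¹}) K := Module.finrank_pos
  have hne : S.Nonempty := by
    by_contra hcon
    rw [Finset.not_nonempty_iff_eq_empty] at hcon
    rw [hcon, Finset.sum_empty] at hsum
    omega
  obtain ⟨P, hP⟩ := hne
  refine ⟨P, ?_⟩
  have h2 := (hS P).1 hP
  rw [P.ord_inv] at h2
  omega

/-- if all the ratios of the coordinates are algebraic, so is the field -/
theorem algebraic_of_coords {y : Fin (n + 1) → K} (hgen : coords ℂ y = ⊤)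
    (h : ∀ i j, y j ≠ 0 → IsAlgebraic ℂ (y i / y j)) (x : K) : IsAlgebraic ℂ x := by
  have h1 : Algebra.IsAlgebraic ℂ (coords ℂ y) := by
    apply IntermediateField.isAlgebraic_adjoin
    rintro _ ⟨i, j, hj, rfl⟩
    exact (h i j hj).isIntegral
  have hx : x ∈ coords ℂ y := by rw [hgen]; exact IntermediateField.mem_top
  have h2 := h1.isAlgebraic ⟨x, hx⟩
  exact (isAlgebraic_algebraMap_iff (algebraMap (coords ℂ y) K).injective).2 h2

theorem const_alg {c : K} (h : IsAlgebraic ℂ c) {m : ℕ} (hm : 0 < m) {x : K} (hx : x ^ m = c) :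
    IsAlgebraic ℂ x := by
  rw [← hx] at h
  exact (IsAlgebraic.of_pow hm h)

/-- some place is not centred in the complement of the zeros of a form of positive degree -/
theorem exists_noncentre [IsFF ℂ K] {y : Fin (n + 1) → K} (hgen : coords ℂ y = ⊤)
    {F : MvPolynomial (Fin (n + 1)) ℂ} {a : ℕ} (ha : 1 ≤ a) (hv : val y F ≠ 0) :
    ∃ P : Place ℂ K, ∃ j, ¬ P.Reg (y j ^ a / val y F) := by
  by_contra hcon
  push Not at hcon
  have h1 : ∀ j, IsAlgebraic ℂ (y j ^ a / val y F) := by
    intro j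
    by_contra htr
    obtain ⟨P, hP⟩ := exists_pole htr
    rcases hcon P j with h0 | h0
    · rw [h0, P.ord_zero] at hP
      exact lt_irrefl _ hP
    · omega
  have h2 : ∀ i j, y j ≠ 0 → IsAlgebraic ℂ (y i / y j) := by
    intro i j hj
    have h3 : (y i / y j) ^ a = (y i ^ a / val y F) * (y j ^ a / val y F)⁻¹ := by
      rw [div_pow, inv_div]
      have : y j ^ a ≠ 0 := pow_ne_zero _ hj
      field_simp
    exact const_alg ((h1 i).mul (h1 j).inv) ha h3
  obtain ⟨x, hx⟩ := IsFF.exists_transcendental (k := ℂ) (K := K)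
  exact hx (algebraic_of_coords hgen h2 x)

theorem reg_pow' {P : Place ℂ K} {f : K} (h : P.Reg f) (m : ℕ) : P.Reg (f ^ m) := by
  induction m with
  | zero => rw [pow_zero]; exact P.reg_one
  | succ m ih => rw [pow_succ]; exact P.reg_mul ih h

/-- a place with a centre outside the zeros of a form -/
theorem reg_of_centre {κ : Type} {y : Fin (n + 1) → K} {F : MvPolynomial (Fin (n + 1)) ℂ} {a : ℕ}
    (hF : F.IsHomogeneous a) {P : Place ℂ K} (h : HasCentre (fun _ : κ => F) y P)
    (j : Fin (n + 1)) : P.Reg (y j ^ a / val y F) := by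
  obtain ⟨l, d, hd, i, hi, hv, hr, hq⟩ := h
  have hF0 : F ≠ 0 := by
    rintro rfl
    exact hv (map_zero _)
  have hda : d = a := hd.inj_right hF hF0
  subst hda
  have h1 : y j ^ d / val y F = (y j / y i) ^ d * (y i ^ d / val y F) := by
    rw [div_pow]
    have : y i ^ d ≠ 0 := pow_ne_zero _ hi
    field_simp
  rw [h1]
  exact P.reg_mul (reg_pow' (hr j) d) hq

/-- values of forms at a scaled point -/
theorem val_smul {y : Fin (n + 1) → K} (c : K) {F : MvPolynomial (Fin (n + 1)) ℂ} {a : ℕ}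
    (hF : F.IsHomogeneous a) : val (fun j => c * y j) F = c ^ a * val y F :=
  aeval_smul' hF c y

/-- the value of a form at a polynomial point -/
theorem val_poly (t : K) (ψ : Fin (n + 1) → Polynomial ℂ) (F : MvPolynomial (Fin (n + 1)) ℂ) :
    val (fun j => Polynomial.aeval t (ψ j)) F = Polynomial.aeval t (aeval ψ F) := by
  unfold val
  rw [← MvPolynomial.comp_aeval_apply]

theorem eval_poly (t : ℂ) (ψ : Fin (n + 1) → Polynomial ℂ) (F : MvPolynomial (Fin (n + 1)) ℂ) :
    (aeval ψ F : Polynomial ℂ).eval t = eval (fun j => (ψ j).eval t) F := by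
  have h := MvPolynomial.comp_aeval_apply (f := ψ) (Polynomial.aeval t : Polynomial ℂ →ₐ[ℂ] ℂ) F
  rw [Polynomial.coe_aeval_eq_eval] at h
  rw [h, MvPolynomial.aeval_eq_eval]

theorem exists_coprime {p : Fin (n + 1) → Polynomial ℂ} :
    ∃ (D : Polynomial ℂ) (p' : Fin (n + 1) → Polynomial ℂ), (∀ j, p j = D * p' j) ∧
      ∀ t, ∃ j, (p' j).eval t ≠ 0 := by
  classical
  obtain ⟨p', h1, h2⟩ := Finset.extract_gcd p (s := Finset.univ) ⟨0, Finset.mem_univ _⟩
  refine ⟨Finset.univ.gcd p, p', fun j => h1 j (Finset.mem_univ j), fun t => ?_⟩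
  by_contra hcon
  push Not at hcon
  have h3 : Polynomial.X - Polynomial.C t ∣ Finset.univ.gcd p' :=
    Finset.dvd_gcd fun j _ => Polynomial.dvd_iff_isRoot.2 (hcon j)
  rw [h2] at h3
  have h4 := Polynomial.isUnit_iff_degree_eq_zero.1 (isUnit_of_dvd_one h3)
  rw [Polynomial.degree_X_sub_C] at h4
  exact one_ne_zero h4

/-- **Laurent coordinates.** -/
theorem exists_coord [IsFF ℂ K] {y : Fin (n + 1) → K} (hy : y ≠ 0) (hgen : coords ℂ y = ⊤)
    {S : Finset (Place ℂ K)} (hSne : S.Nonempty) (hS : canDeg ℂ K + S.card ≤ 0) :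
    ∃ ψ : Fin (n + 1) → Polynomial ℂ,
      (∀ F, IsForm F → (val y F = 0 ↔ ∀ t : ℂ, t ≠ 0 → eval (fun j => (ψ j).eval t) F = 0)) ∧
      (∀ F a, 1 ≤ a → F.IsHomogeneous a → val y F ≠ 0 →
        (∀ z, z ∉ S → ∀ j, z.Reg (y j ^ a / val y F)) →
        ∀ t : ℂ, t ≠ 0 → eval (fun j => (ψ j).eval t) F ≠ 0) ∧
      (∃ (t' t : ℂ) (i j : Fin (n + 1)), t' ≠ 0 ∧ t ≠ 0 ∧
        (ψ i).eval t' * (ψ j).eval t ≠ (ψ j).eval t' * (ψ i).eval t) ∧
      (∀ x, ∃ j, (ψ j).eval x ≠ 0) ∧
      ∃ t lam : K, Transcendental ℂ t ∧ lam ≠ 0 ∧ ∀ j, Polynomial.aeval t (ψ j) = lam * y j := by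
  classical
  obtain ⟨t, ht, hlau⟩ := Pool.Agent.TH143.LG.laurent hSne hS
  have htr : Transcendental ℂ t := Pool.Agent.W619.PQ.transcendental_of_top ht
  have hinj : ∀ p : Polynomial ℂ, Polynomial.aeval t p = 0 → p = 0 := by
    intro p hp
    by_contra hne
    exact htr ⟨p, hne, hp⟩
  obtain ⟨i0, hi0⟩ := Function.ne_iff.1 hy
  have hi0' : y i0 ≠ 0 := hi0
  -- numerators and denominators
  have hrs : ∀ j, ∃ r s : Polynomial ℂ, Polynomial.aeval t s ≠ 0 ∧
      y j / y i0 = Polynomial.aeval t r / Polynomial.aeval t s := by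
    intro j
    have h2 : y j / y i0 ∈ ℂ⟮t⟯ := by
      rw [ht]
      exact IntermediateField.mem_top
    obtain ⟨r, s, hrs⟩ := (IntermediateField.mem_adjoin_simple_iff ℂ _).1 h2
    by_cases h0 : Polynomial.aeval t s = 0
    · refine ⟨0, 1, by simp, ?_⟩
      rw [hrs, h0, div_zero, map_zero, zero_div]
    · exact ⟨r, s, h0, hrs⟩
  choose r s hs hrs using hrs
  let q : Polynomial ℂ := ∏ j, s j
  let p : Fin (n + 1) → Polynomial ℂ := fun j => r j * ∏ k ∈ Finset.univ.erase j, s k
  have hq : Polynomial.aeval t q ≠ 0 := by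
    simp only [q, map_prod]
    exact Finset.prod_ne_zero_iff.2 fun j _ => hs j
  have hp : ∀ j, Polynomial.aeval t (p j) = (Polynomial.aeval t q / y i0) * y j := by
    intro j
    have h1 : q = s j * ∏ k ∈ Finset.univ.erase j, s k :=
      (Finset.mul_prod_erase Finset.univ s (Finset.mem_univ j)).symm
    have h2 := hrs j
    have h3 : y j = y i0 * (Polynomial.aeval t (r j) / Polynomial.aeval t (s j)) := by
      rw [← h2]
      field_simp
    rw [h3]
    have h4 := hs j
    simp only [p]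
    rw [h1, map_mul, map_mul]
    field_simp
  obtain ⟨D, ψ, hD, hψ⟩ := exists_coprime (p := p)
  have hD0 : Polynomial.aeval t D ≠ 0 := by
    intro h0
    have h1 := hp i0
    rw [hD i0, map_mul, h0, zero_mul, div_mul_cancel₀ _ hi0'] at h1
    exact hq h1.symm
  set lam : K := Polynomial.aeval t q / y i0 / Polynomial.aeval t D with hlam
  have hlam0 : lam ≠ 0 := div_ne_zero (div_ne_zero hq hi0') hD0
  have hψy : ∀ j, Polynomial.aeval t (ψ j) = lam * y j := by
    intro j
    have h1 := hp j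
    rw [hD j, map_mul] at h1
    rw [hlam, div_mul_eq_mul_div, eq_div_iff hD0, mul_comm, h1]
  have hval : ∀ (F : MvPolynomial (Fin (n + 1)) ℂ) (a : ℕ), F.IsHomogeneous a →
      Polynomial.aeval t (aeval ψ F : Polynomial ℂ) = lam ^ a * val y F := by
    intro F a hF
    rw [← val_poly, funext hψy, val_smul _ hF]
  refine ⟨ψ, ?_, ?_, ?_, hψ, t, lam, htr, hlam0, hψy⟩
  · rintro F ⟨a, hF⟩
    constructor
    · intro h0 t0 _
      have h1 := hval F a hF
      rw [h0, mul_zero] at h1
      rw [← eval_poly, hinj _ h1, Polynomial.eval_zero]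
    · intro h0
      have h1 : (aeval ψ F : Polynomial ℂ) = 0 := by
        apply Polynomial.eq_zero_of_infinite_isRoot
        have h2 : ({0}ᶜ : Set ℂ).Infinite := (Set.finite_singleton (0 : ℂ)).infinite_compl
        refine h2.mono fun t0 ht0 => ?_
        show (aeval ψ F : Polynomial ℂ).eval t0 = 0
        rw [eval_poly]
        exact h0 t0 ht0
      have h2 := hval F a hF
      rw [h1, map_zero] at h2
      exact (mul_eq_zero.1 h2.symm).resolve_left (pow_ne_zero _ hlam0)
  · intro F a ha hF hv hreg t0 ht0 h0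
    obtain ⟨j, hj⟩ := hψ t0
    apply hj
    obtain ⟨l, g, hg⟩ := hlau (y j ^ a / val y F) (fun z hz => by
      by_contra hcon
      rcases hreg z hcon j with h1 | h1
      · rw [h1, z.ord_zero] at hz
        exact lt_irrefl _ hz
      · omega)
    have h1 : ψ j ^ a * Polynomial.X ^ l = g * aeval ψ F := by
      have h2 : Polynomial.aeval t (ψ j ^ a * Polynomial.X ^ l - g * aeval ψ F) = 0 := by
        rw [map_sub, map_mul, map_mul, map_pow, map_pow, Polynomial.aeval_X, hψy, hval F a hF, ← hg]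
        field_simp
        ring
      exact sub_eq_zero.1 (hinj _ h2)
    have h2 := congrArg (Polynomial.eval t0) h1
    rw [Polynomial.eval_mul, Polynomial.eval_mul, Polynomial.eval_pow, Polynomial.eval_pow,
      Polynomial.eval_X, eval_poly, h0, mul_zero] at h2
    rcases mul_eq_zero.1 h2 with h3 | h3
    · exact eq_zero_of_pow_eq_zero h3
    · exact absurd h3 (pow_ne_zero _ ht0)
  · by_contra hcon
    push Not at hcon
    obtain ⟨i1, hi1⟩ := hψ 1
    have h1 : ∀ j, Polynomial.C ((ψ i1).eval 1) * ψ j = Polynomial.C ((ψ j).eval 1) * ψ i1 := by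
      intro j
      apply Polynomial.eq_of_infinite_eval_eq
      have h2 : ({0}ᶜ : Set ℂ).Infinite := (Set.finite_singleton (0 : ℂ)).infinite_compl
      refine h2.mono fun t0 ht0 => ?_
      show (Polynomial.C ((ψ i1).eval 1) * ψ j).eval t0 = (Polynomial.C ((ψ j).eval 1) * ψ i1).eval t0
      have h3 := hcon t0 1 j i1 ht0 one_ne_zero
      rw [Polynomial.eval_mul, Polynomial.eval_mul, Polynomial.eval_C, Polynomial.eval_C]
      linear_combination h3
    have h2 : ∀ j, algebraMap ℂ K ((ψ i1).eval 1) * y j = algebraMap ℂ K ((ψ j).eval 1) * y i1 := by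
      intro j
      have h3 := congrArg (Polynomial.aeval t) (h1 j)
      rw [map_mul, map_mul, Polynomial.aeval_C, Polynomial.aeval_C, hψy, hψy] at h3
      apply mul_left_cancel₀ hlam0
      linear_combination h3
    have hc0 : algebraMap ℂ K ((ψ i1).eval 1) ≠ 0 := (map_ne_zero _).2 hi1
    have hyi1 : y i1 ≠ 0 := by
      intro h0
      apply hi0'
      have h3 := h2 i0
      rw [h0, mul_zero] at h3
      exact (mul_eq_zero.1 h3).resolve_left hc0
    have h3 : ∀ j, y j = algebraMap ℂ K ((ψ j).eval 1 / (ψ i1).eval 1) * y i1 := by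
      intro j
      rw [map_div₀]
      field_simp
      linear_combination h2 j
    obtain ⟨x, hx⟩ := IsFF.exists_transcendental (k := ℂ) (K := K)
    refine hx (algebraic_of_coords hgen (fun i j _ => ?_) x)
    rw [h3 i, h3 j, mul_div_mul_right _ _ hyi1, ← map_div₀]
    exact isAlgebraic_algebraMap _

end Pool.Agent.K9h3.KH
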