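import Pool.Agent.N155.L.Omn
import Pool.Agent.K9h84.CI.Cri

/-!
# The dimension of a closed set and gradients

If `r` forms vanish at the generic point of a closed subvariety of dimension at least two of the
projective space of dimension `n`, and `n < r + 2`, then their gradients are linearly dependent at
the generic point.
-/

set_option autoImplicit false

namespace Pool.Agent.K9h3.KH

open FF MvPolynomial Pool.Agent.W602.GT Pool.Agent.N155
open Pool.Agent.K9h84.CI (PP VV gcp gr)

section

variable {n : ℕ} {K : Type} [Field K] [Algebra ℂ K]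

/-- chain rule -/
theorem der_val (D : Derivation ℂ K K) (u : Fin (n + 1) → K) (F : MvPolynomial (Fin (n + 1)) ℂ) :
    D (val u F) = ∑ j, val u (pderiv j F) * D (u j) := by
  unfold val
  induction F using MvPolynomial.induction_on with
  | C a => simp
  | add p q hp hq => simp only [map_add, hp, hq, add_mul, Finset.sum_add_distrib]
  | mul_X p i hp =>
    have h1 : ∀ j, (aeval u) ((pderiv j) (p * X i)) * D (u j) =
        u i * ((aeval u) ((pderiv j) p) * D (u j)) +
        (aeval u) p * ((if j = i then (1 : K) else 0) * D (u j)) := by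
      intro j
      rw [pderiv_mul, map_add, map_mul, map_mul, aeval_X, pderiv_X]
      by_cases hij : j = i
      · subst hij
        simp
        ring
      · rw [Pi.single_eq_of_ne (Ne.symm hij), if_neg hij, map_zero]
        ring
    simp only [h1, Finset.sum_add_distrib, ← Finset.mul_sum]
    rw [← hp, map_mul, aeval_X, D.leibniz, smul_eq_mul, smul_eq_mul]
    simp
    ring

/-- Euler's identity -/
theorem euler_val (u : Fin (n + 1) → K) {F : MvPolynomial (Fin (n + 1)) ℂ} {d : ℕ}
    (hF : F.IsHomogeneous d) : ∑ j, val u (pderiv j F) * u j = d * val u F := by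
  have h := congrArg (aeval u) hF.sum_X_mul_pderiv
  rw [map_sum, nsmul_eq_mul, map_mul, map_natCast] at h
  unfold val
  rw [← h]
  refine Finset.sum_congr rfl fun j _ => ?_
  rw [map_mul, aeval_X, mul_comm]

theorem dep {y : Fin (n + 1) → K} (hy : y ≠ 0) (hgen : coords ℂ y = ⊤) {w : ℕ}
    (hw : Algebra.trdeg ℂ K = w) (hw2 : 2 ≤ w) {r : ℕ} (hr : n < r + 2)
    (A : Fin r → MvPolynomial (Fin (n + 1)) ℂ) (e : Fin r → ℕ) (hA : ∀ i, (A i).IsHomogeneous (e i))
    (h0 : ∀ i, val y (A i) = 0) :
    ¬ LinearIndependent K (fun i => (fun j => val y (pderiv j (A i)) : Fin (n + 1) → K)) := by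
  classical
  intro hli
  obtain ⟨i0, hi0⟩ := Function.ne_iff.1 hy
  have hi0' : y i0 ≠ 0 := hi0
  obtain ⟨sb, hsb⟩ := exists_coord_basis hgen hi0' hw
  set u : Fin (n + 1) → K := fun j => y j / y i0 with hu
  have hyu : ∀ j, y j = y i0 * u j := fun j => by
    simp only [hu]
    field_simp
  have hu0 : u i0 = 1 := div_self hi0'
  let b1 : Fin w := ⟨0, by omega⟩
  let b2 : Fin w := ⟨1, by omega⟩
  have hb : b1 ≠ b2 := fun h => by
    have := congrArg Fin.val h
    simp [b1, b2] at this
  obtain ⟨D1, hD1⟩ := exists_der _ hsb (fun b => if b = b1 then 1 else 0)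
  obtain ⟨D2, hD2⟩ := exists_der _ hsb (fun b => if b = b2 then 1 else 0)
  have d11 : D1 (u (sb b1)) = 1 := (hD1 b1).trans (if_pos rfl)
  have d12 : D1 (u (sb b2)) = 0 := (hD1 b2).trans (if_neg hb.symm)
  have d21 : D2 (u (sb b1)) = 0 := (hD2 b1).trans (if_neg hb)
  have d22 : D2 (u (sb b2)) = 1 := (hD2 b2).trans (if_pos rfl)
  have d10 : D1 (u i0) = 0 := by rw [hu0, D1.map_one_eq_zero]
  have d20 : D2 (u i0) = 0 := by rw [hu0, D2.map_one_eq_zero]
  -- values at the scaled point
  have hval : ∀ (F : MvPolynomial (Fin (n + 1)) ℂ) (d : ℕ), F.IsHomogeneous d →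
      val y F = y i0 ^ d * val u F := by
    intro F d hF
    have h1 := aeval_smul' hF (y i0) u
    rw [← funext hyu] at h1
    exact h1
  have hu0' : ∀ i, val u (A i) = 0 := by
    intro i
    have h1 := h0 i
    rw [hval _ _ (hA i)] at h1
    exact (mul_eq_zero.1 h1).resolve_left (pow_ne_zero _ hi0')
  have hpd : ∀ i j, val y (pderiv j (A i)) = y i0 ^ (e i - 1) * val u (pderiv j (A i)) :=
    fun i j => hval _ _ ((hA i).pderiv)
  let M : Matrix (Fin r) (Fin (n + 1)) K := Matrix.of fun i j => val y (pderiv j (A i))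
  have hrank : M.rank = r := by
    have h1 : LinearIndependent K M.row := hli
    rw [LinearIndependent.rank_matrix h1, Fintype.card_fin]
  have hker : ∀ v : Fin (n + 1) → K, (∀ i, ∑ j, val u (pderiv j (A i)) * v j = 0) →
      M.mulVecLin v = 0 := by
    intro v hv
    funext i
    have h1 : M.mulVecLin v i = ∑ j, val y (pderiv j (A i)) * v j := rfl
    rw [h1, Pi.zero_apply]
    simp only [hpd, mul_assoc, ← Finset.mul_sum]
    rw [hv i, mul_zero]
  have k0 : M.mulVecLin u = 0 := hker _ fun i => by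
    rw [euler_val u (hA i), hu0' i, mul_zero]
  have k1 : M.mulVecLin (fun j => D1 (u j)) = 0 := hker _ fun i => by
    rw [← der_val, hu0' i, map_zero]
  have k2 : M.mulVecLin (fun j => D2 (u j)) = 0 := hker _ fun i => by
    rw [← der_val, hu0' i, map_zero]
  let V : Fin 3 → LinearMap.ker M.mulVecLin := ![⟨u, k0⟩, ⟨fun j => D1 (u j), k1⟩,
    ⟨fun j => D2 (u j), k2⟩]
  have hV : LinearIndependent K V := by
    rw [Fintype.linearIndependent_iff]
    intro g hg
    rw [Fin.sum_univ_three] at hg
    have hg' := congrArg Subtype.val hg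
    have h1 : ∀ j, g 0 * u j + g 1 * D1 (u j) + g 2 * D2 (u j) = 0 := fun j => congrFun hg' j
    have e0 := h1 i0
    rw [hu0] at e0
    rw [hu0] at d10 d20
    rw [d10, d20] at e0
    have g0 : g 0 = 0 := by linear_combination e0
    have e1 := h1 (sb b1)
    rw [d11, d21, g0] at e1
    have g1 : g 1 = 0 := by linear_combination e1
    have e2 := h1 (sb b2)
    rw [d12, d22, g0] at e2
    have g2 : g 2 = 0 := by linear_combination e2
    intro i
    fin_cases i
    · exact g0
    · exact g1
    · exact g2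
  have h3 := hV.fintype_card_le_finrank
  rw [Fintype.card_fin] at h3
  have h4 := LinearMap.finrank_range_add_finrank_ker M.mulVecLin
  rw [Module.finrank_fin_fun] at h4
  have h5 : Module.finrank K (LinearMap.range M.mulVecLin) = r := hrank
  omega

end

section

variable {s : ℕ}

/-- the components of the generalised cross product of the gradients, as polynomials -/
noncomputable def NP (F : Fin (s + 2) → PP s) (l : Fin (s + 2 + 1)) : PP s :=
  (-1) ^ (l : ℕ) * ((Matrix.of fun i j => pderiv j (F i) :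
    Matrix (Fin (s + 2)) (Fin (s + 2 + 1)) (PP s)).submatrix id (Fin.succAbove l)).det

theorem NP_eval (F : Fin (s + 2) → PP s) (l : Fin (s + 2 + 1)) (x : VV s) :
    eval x (NP F l) = gcp (fun i => gr (F i) x) l := by
  unfold NP gcp
  rw [map_mul, map_pow, map_neg, map_one, RingHom.map_det]
  rfl

theorem det_hom {σ : Type} {m : ℕ} {M : Matrix (Fin m) (Fin m) (MvPolynomial σ ℂ)} {e : Fin m → ℕ}
    (h : ∀ i j, (M i j).IsHomogeneous (e i)) : M.det.IsHomogeneous (∑ i, e i) := by
  rw [Matrix.det_apply']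
  refine IsHomogeneous.sum _ _ _ fun τ _ => ?_
  have h1 : (∏ i, M (τ i) i).IsHomogeneous (∑ i, e (τ i)) := IsHomogeneous.prod _ _ _ fun i _ => h _ _
  rw [Equiv.sum_comp τ e] at h1
  have h2 := (isHomogeneous_C σ (((Equiv.Perm.sign τ : ℤˣ) : ℤ) : ℂ)).mul h1
  rw [zero_add] at h2
  convert h2 using 2
  simp

theorem NP_hom {F : Fin (s + 2) → PP s} {e : Fin (s + 2) → ℕ} (h : ∀ i, (F i).IsHomogeneous (e i))
    (l : Fin (s + 2 + 1)) : (NP F l).IsHomogeneous (∑ i, (e i - 1)) := by
  unfold NP
  have h1 : (((Matrix.of fun i j => pderiv j (F i) :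
    Matrix (Fin (s + 2)) (Fin (s + 2 + 1)) (PP s)).submatrix id (Fin.succAbove l)).det).IsHomogeneous
      (∑ i, (e i - 1)) := det_hom fun i j => (h i).pderiv
  have h2 := (isHomogeneous_C (Fin (s + 3)) (((-1) ^ (l : ℕ) : ℂ))).mul h1
  rw [zero_add] at h2
  convert h2 using 2
  simp

theorem NP_val {K : Type} [Field K] [Algebra ℂ K] {y : Fin (s + 3) → K} {F : Fin (s + 2) → PP s}
    (h : ¬ LinearIndependent K (fun i => (fun j => val y (pderiv j (F i)) : Fin (s + 3) → K)))
    (l : Fin (s + 2 + 1)) : val y (NP F l) = 0 := by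
  rw [Fintype.linearIndependent_iff] at h
  push Not at h
  obtain ⟨g, hg, i, hi⟩ := h
  unfold NP val
  rw [map_mul]
  refine mul_eq_zero_of_right _ ?_
  have h1 : (aeval y) ((Matrix.of fun i j => pderiv j (F i) :
    Matrix (Fin (s + 2)) (Fin (s + 2 + 1)) (PP s)).submatrix id (Fin.succAbove l)).det =
    ((aeval y).toRingHom.mapMatrix ((Matrix.of fun i j => pderiv j (F i) :
    Matrix (Fin (s + 2)) (Fin (s + 2 + 1)) (PP s)).submatrix id (Fin.succAbove l))).det := by
    rw [← RingHom.map_det]
    rfl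
  rw [h1]
  refine Matrix.exists_vecMul_eq_zero_iff.1 ⟨g, fun h0 => hi (by rw [h0]; rfl), ?_⟩
  funext j
  have h2 := congrFun hg (Fin.succAbove l j)
  rw [Finset.sum_apply] at h2
  exact h2

/-- dependent gradients of the residual equations of a member of a pencil -/
theorem dep_pencil {K : Type} [Field K] [Algebra ℂ K] {y : Fin (s + 3) → K}
    {R : Fin s → PP s} {P Q : PP s} {a b : ℕ} (hb : 1 ≤ b) {c : ℂ} (hc : c ≠ 0)
    (hP : val y P ≠ 0)
    (h : ¬ LinearIndependent K (fun i => (fun j => val y (pderiv j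
      ((Fin.cons (α := fun _ => PP s) (Q ^ a - C c * P ^ b) R : Fin (s + 1) → PP s) i)) :
        Fin (s + 3) → K))) :
    ¬ LinearIndependent K (fun i => (fun j => val y (pderiv j
      ((Fin.cons (α := fun _ => PP s) P (Fin.cons (α := fun _ => PP s) Q R : Fin (s + 1) → PP s) :
        Fin (s + 2) → PP s) i)) : Fin (s + 3) → K)) := by
  rw [Fintype.linearIndependent_iff] at h ⊢
  push Not at h
  obtain ⟨g, hg, i1, hi1⟩ := h
  intro hcon
  have hc' : algebraMap ℂ K c ≠ 0 := (map_ne_zero _).2 hc
  have hH : ∀ j, val y (pderiv j (Q ^ a - C c * P ^ b)) =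
      (a * val y Q ^ (a - 1)) * val y (pderiv j Q) -
      (algebraMap ℂ K c * (b * val y P ^ (b - 1))) * val y (pderiv j P) := by
    intro j
    unfold val
    rw [map_sub, pderiv_C_mul, Derivation.leibniz_pow, Derivation.leibniz_pow]
    simp only [map_sub, map_mul, smul_eq_mul, nsmul_eq_mul, map_natCast, map_pow, aeval_C, smul_eq_C_mul]
    ring
  have key := hcon (Fin.cons (α := fun _ => K) (-(g 0 * (algebraMap ℂ K c * (b * val y P ^ (b - 1)))))
    (Fin.cons (α := fun _ => K) (g 0 * (a * val y Q ^ (a - 1))) (fun i => g i.succ) :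
      Fin (s + 1) → K)) (by
    funext j
    have h1 := congrFun hg j
    rw [Finset.sum_apply, Fin.sum_univ_succ] at h1
    rw [Finset.sum_apply, Fin.sum_univ_succ, Fin.sum_univ_succ]
    simp only [Fin.cons_zero, Fin.cons_succ, Pi.smul_apply, smul_eq_mul, Pi.zero_apply] at h1 ⊢
    rw [hH] at h1
    linear_combination h1)
  have hg0 : g 0 = 0 := by
    have h1 := key 0
    rw [Fin.cons_zero] at h1
    have h2 : algebraMap ℂ K c * (b * val y P ^ (b - 1)) ≠ 0 := by
      have : (b : K) ≠ 0 := by
        have h4 : (b : ℂ) ≠ 0 := by exact_mod_cast (by omega : b ≠ 0)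
        have h5 : algebraMap ℂ K (b : ℂ) ≠ 0 := (map_ne_zero _).2 h4
        rwa [map_natCast] at h5
      exact mul_ne_zero hc' (mul_ne_zero this (pow_ne_zero _ hP))
    exact (mul_eq_zero.1 (neg_eq_zero.1 h1)).resolve_right h2
  apply hi1
  refine Fin.cases ?_ (fun i => ?_) i1
  · exact hg0
  · have h1 := key i.succ.succ
    rwa [Fin.cons_succ, Fin.cons_succ] at h1

end

end Pool.Agent.K9h3.KH
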