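import Mathlib

/-!
# Parameters of entire curves on rational curves

An entire curve `f` whose points are given by a ratio of entire functions `A / B` through
polynomials `ψ`, and which does not meet the point at infinity of `ψ`, is `ψ ∘ u` with an entire
function `u`.
-/

set_option autoImplicit false

namespace Pool.Agent.K9h3.KH

open Filter Topology Metric Set

/-- an entire function which is not zero has isolated zeros -/
theorem ne_near {B : ℂ → ℂ} (hB : Differentiable ℂ B) (hB0 : ∃ z, B z ≠ 0) (z0 : ℂ) :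
    ∀ᶠ z in 𝓝[≠] z0, B z ≠ 0 := by
  have han : AnalyticOnNhd ℂ B univ := fun z _ => hB.analyticAt z
  rcases (han z0 (mem_univ _)).eventually_eq_zero_or_eventually_ne_zero with h | h
  · obtain ⟨z, hz⟩ := hB0
    exact absurd (han.eqOn_zero_of_preconnected_of_eventuallyEq_zero isPreconnected_univ
      (mem_univ z0) h (mem_univ z)) hz
  · exact h

/-- quotients of entire functions -/
theorem exists_quot {A B : ℂ → ℂ} (hB : Differentiable ℂ B) (hB0 : ∃ z, B z ≠ 0)
    (h : ∀ z0, ∃ w : ℂ → ℂ, AnalyticAt ℂ w z0 ∧ ∀ᶠ z in 𝓝 z0, A z = w z * B z) :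
    ∃ u : ℂ → ℂ, Differentiable ℂ u ∧ ∀ z, A z = u z * B z := by
  choose w hw hAB using h
  refine ⟨fun z => w z z, fun z0 => ?_, fun z => (hAB z).self_of_nhds⟩
  have h1 : (fun z => w z z) =ᶠ[𝓝 z0] w z0 := by
    filter_upwards [(hAB z0).eventually_nhds, (hw z0).eventually_analyticAt] with z h1 h2
    have h3 : w z =ᶠ[𝓝[≠] z] w z0 := by
      filter_upwards [(hAB z).filter_mono nhdsWithin_le_nhds, h1.filter_mono nhdsWithin_le_nhds,
        ne_near hB hB0 z] with x hx1 hx2 hx3
      exact mul_right_cancel₀ hx3 (hx1.symm.trans hx2)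
    have h4 : Tendsto (w z) (𝓝[≠] z) (𝓝 (w z z)) :=
      (hw z).continuousAt.tendsto.mono_left nhdsWithin_le_nhds
    have h5 : Tendsto (w z0) (𝓝[≠] z) (𝓝 (w z0 z)) :=
      h2.continuousAt.tendsto.mono_left nhdsWithin_le_nhds
    exact tendsto_nhds_unique h4 (h5.congr' h3.symm)
  exact (hw z0).differentiableAt.congr_of_eventuallyEq h1

/-- the homogenization of a polynomial -/
noncomputable def hm (e : ℕ) (p : Polynomial ℂ) (x y : ℂ) : ℂ :=
  ∑ m ∈ Finset.range (e + 1), p.coeff m * y ^ m * x ^ (e - m)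

theorem hm_smul (e : ℕ) (p : Polynomial ℂ) (c x y : ℂ) : hm e p (c * x) (c * y) = c ^ e * hm e p x y := by
  unfold hm
  rw [Finset.mul_sum]
  refine Finset.sum_congr rfl fun m hm => ?_
  have h1 : c ^ e = c ^ m * c ^ (e - m) := by
    rw [← pow_add]
    congr 1
    have := Finset.mem_range.1 hm
    omega
  rw [mul_pow, mul_pow, h1]
  ring

theorem hm_zero (e : ℕ) (p : Polynomial ℂ) (y : ℂ) : hm e p 0 y = p.coeff e * y ^ e := by
  unfold hm
  rw [Finset.sum_range_succ, Nat.sub_self, pow_zero, mul_one, Finset.sum_eq_zero, zero_add]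
  intro m hm
  rw [zero_pow, mul_zero]
  have := Finset.mem_range.1 hm
  omega

theorem hm_mul {e : ℕ} {p : Polynomial ℂ} (hp : p.natDegree ≤ e) (x u : ℂ) :
    hm e p x (u * x) = x ^ e * p.eval u := by
  rw [Polynomial.eval_eq_sum_range' (Nat.lt_succ_of_le hp), Finset.mul_sum]
  unfold hm
  refine Finset.sum_congr rfl fun m hm => ?_
  have h1 : x ^ e = x ^ m * x ^ (e - m) := by
    rw [← pow_add]
    congr 1
    have := Finset.mem_range.1 hm
    omega
  rw [mul_pow, h1]
  ring

theorem hm_cont (e : ℕ) (p : Polynomial ℂ) : Continuous (fun v : ℂ × ℂ => hm e p v.1 v.2) := by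
  unfold hm
  fun_prop

theorem hm_reflect {e : ℕ} {p : Polynomial ℂ} (x y : ℂ) :
    hm e (p.reflect e) x y = hm e p y x := by
  unfold hm
  rw [← Finset.sum_range_reflect]
  refine Finset.sum_congr rfl fun m hm => ?_
  have := Finset.mem_range.1 hm
  have e1 : e + 1 - 1 - m = e - m := by omega
  have e2 : e - (e - m) = m := by omega
  rw [e1, e2, Polynomial.coeff_reflect, Polynomial.revAt_le (by omega), e2]
  ring

theorem step_smul {e : ℕ} {p q : Polynomial ℂ} {a b c x y : ℂ} (hc : c ≠ 0)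
    (h : a * hm e p (c * x) (c * y) = b * hm e q (c * x) (c * y)) :
    a * hm e p x y - b * hm e q x y = 0 := by
  rw [hm_smul, hm_smul] at h
  have hpow : c ^ e ≠ 0 := pow_ne_zero _ hc
  apply mul_left_cancel₀ hpow
  linear_combination h

theorem step_mul {e : ℕ} {p q : Polynomial ℂ} {a b x u : ℂ} (hp : p.natDegree ≤ e)
    (hq : q.natDegree ≤ e) (hx : x ≠ 0) (h : a * hm e p x (u * x) = b * hm e q x (u * x)) :
    a * p.eval u - b * q.eval u = 0 := by
  rw [hm_mul hp, hm_mul hq] at h
  have hpow : x ^ e ≠ 0 := pow_ne_zero _ hx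
  apply mul_left_cancel₀ hpow
  linear_combination h

theorem step_zero {e : ℕ} {p q : Polynomial ℂ} {a b y : ℂ} (hy : y ≠ 0)
    (h : a * hm e p 0 y = b * hm e q 0 y) : a * p.coeff e = b * q.coeff e := by
  rw [hm_zero, hm_zero] at h
  have hpow : y ^ e ≠ 0 := pow_ne_zero _ hy
  apply mul_right_cancel₀ hpow
  linear_combination h

theorem cont_hm (e : ℕ) (p : Polynomial ℂ) {a b : ℂ → ℂ} {z0 : ℂ} (ha : ContinuousAt a z0)
    (hb : ContinuousAt b z0) : ContinuousAt (fun z => hm e p (a z) (b z)) z0 := by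
  unfold hm
  fun_prop

variable {n : ℕ}

/-- **Parameters.** -/
theorem core {f : ℂ → Fin n → ℂ} (hf : Differentiable ℂ f) {ψ : Fin n → Polynomial ℂ} {e : ℕ}
    (hdeg : ∀ k, (ψ k).natDegree ≤ e) {A B : ℂ → ℂ} (hA : Differentiable ℂ A)
    (hB : Differentiable ℂ B) (hB0 : ∃ z, B z ≠ 0)
    (hrel : ∀ z j k, f z j * hm e (ψ k) (B z) (A z) = f z k * hm e (ψ j) (B z) (A z))
    (hout : ∀ z, ∃ j k, f z j * (ψ k).coeff e ≠ f z k * (ψ j).coeff e) :
    ∃ u : ℂ → ℂ, Differentiable ℂ u ∧
      ∀ z j k, f z j * (ψ k).eval (u z) = f z k * (ψ j).eval (u z) := by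
  have hfj : ∀ j, Differentiable ℂ (fun z => f z j) := fun j z => differentiableAt_pi.1 (hf z) j
  have hq : ∃ u : ℂ → ℂ, Differentiable ℂ u ∧ ∀ z, A z = u z * B z := by
    refine exists_quot hB hB0 fun z0 => ?_
    have hBn : ¬ ∀ᶠ z in 𝓝 z0, B z = 0 := by
      intro h0
      have h1 := (ne_near hB hB0 z0).and (h0.filter_mono nhdsWithin_le_nhds)
      obtain ⟨z, hz1, hz2⟩ := h1.exists
      exact hz1 hz2
    obtain ⟨m, B2, hB2, hB20, hBB⟩ :=
      (hB.analyticAt z0).exists_eventuallyEq_pow_smul_nonzero_iff.2 hBn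
    by_cases hA0 : ∀ᶠ z in 𝓝 z0, A z = 0
    · refine ⟨fun _ => 0, analyticAt_const, ?_⟩
      filter_upwards [hA0] with z hz
      rw [hz, zero_mul]
    obtain ⟨l, A2, hA2, hA20, hAA⟩ :=
      (hA.analyticAt z0).exists_eventuallyEq_pow_smul_nonzero_iff.2 hA0
    rcases Nat.lt_or_ge l m with hlm | hlm
    · exfalso
      obtain ⟨j, k, hjk⟩ := hout z0
      apply hjk
      -- the relation of the reduced functions
      have h1 : ∀ᶠ z in 𝓝[≠] z0, f z j * hm e (ψ k) ((z - z0) ^ (m - l) * B2 z) (A2 z) -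
          f z k * hm e (ψ j) ((z - z0) ^ (m - l) * B2 z) (A2 z) = 0 := by
        filter_upwards [hBB.filter_mono nhdsWithin_le_nhds, hAA.filter_mono nhdsWithin_le_nhds,
          self_mem_nhdsWithin] with z h1 h2 h3
        have hz : z - z0 ≠ 0 := sub_ne_zero.2 h3
        have h4 := hrel z j k
        have e1 : B z = (z - z0) ^ l * ((z - z0) ^ (m - l) * B2 z) := by
          rw [h1, smul_eq_mul, ← mul_assoc, ← pow_add]
          congr 2
          omega
        rw [e1, h2, smul_eq_mul] at h4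
        exact step_smul (pow_ne_zero _ hz) h4
      have h2 : ContinuousAt (fun z => f z j * hm e (ψ k) ((z - z0) ^ (m - l) * B2 z) (A2 z) -
          f z k * hm e (ψ j) ((z - z0) ^ (m - l) * B2 z) (A2 z)) z0 := by
        have c1 : ContinuousAt (fun z => (z - z0) ^ (m - l) * B2 z) z0 :=
          ((continuousAt_id.sub continuousAt_const).pow _).mul hB2.continuousAt
        have c2 : ∀ p : Polynomial ℂ, ContinuousAt
            (fun z => hm e p ((z - z0) ^ (m - l) * B2 z) (A2 z)) z0 := fun p =>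
          cont_hm e p c1 hA2.continuousAt
        exact ((hfj j).continuous.continuousAt.mul (c2 _)).sub
          ((hfj k).continuous.continuousAt.mul (c2 _))
      have h3 := tendsto_nhds_unique (h2.tendsto.mono_left (nhdsWithin_le_nhds (s := {z0}ᶜ)))
        (tendsto_const_nhds.congr' (h1.mono fun z hz => hz.symm))
      have e1 : (z0 - z0) ^ (m - l) * B2 z0 = 0 := by
        rw [sub_self, zero_pow (by omega), zero_mul]
      rw [e1] at h3
      exact step_zero hA20 (sub_eq_zero.1 h3)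
    · refine ⟨fun z => (z - z0) ^ (l - m) * A2 z / B2 z, ?_, ?_⟩
      · exact (((analyticAt_id.sub analyticAt_const).pow _).mul hA2).div hB2 hB20
      · filter_upwards [hBB, hAA, hB2.continuousAt.eventually_ne hB20] with z h1 h2 h3
        rw [h1, h2, smul_eq_mul, smul_eq_mul]
        have e1 : (z - z0) ^ l = (z - z0) ^ (l - m) * (z - z0) ^ m := by
          rw [← pow_add]
          congr 1
          omega
        rw [e1]
        field_simp
  obtain ⟨u, hu, hAu⟩ := hq
  refine ⟨u, hu, fun z0 j k => ?_⟩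
  have h1 : ∀ᶠ z in 𝓝[≠] z0, f z j * (ψ k).eval (u z) - f z k * (ψ j).eval (u z) = 0 := by
    filter_upwards [ne_near hB hB0 z0] with z hz
    have h2 := hrel z j k
    rw [hAu z] at h2
    exact step_mul (hdeg _) (hdeg _) hz h2
  have hcont : Continuous (fun z => f z j * (ψ k).eval (u z) - f z k * (ψ j).eval (u z)) :=
    ((hfj j).continuous.mul ((ψ k).continuous.comp hu.continuous)).sub
      ((hfj k).continuous.mul ((ψ j).continuous.comp hu.continuous))
  have h3 := tendsto_nhds_unique ((hcont.tendsto z0).mono_left (nhdsWithin_le_nhds (s := {z0}ᶜ)))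
    (tendsto_const_nhds.congr' (h1.mono fun z hz => hz.symm))
  exact sub_eq_zero.1 h3

end Pool.Agent.K9h3.KH
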