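import Pool.Agent.K9h3.KH.A
import Pool.Agent.K9h3.KH.H
import Pool.Agent.K9h3.CV.G

/-!
# Entire curves whose Zariski closure is an image of the punctured line factor through it
-/

set_option autoImplicit false

namespace Pool.Agent.K9h3.KH

open FF MvPolynomial Pool.Agent.W602.GT Pool.Agent.N155 Pool.Agent.W603.LV

variable {n : ℕ}

/-- the homogenization as a form -/
noncomputable def hfo (e : ℕ) (p : Polynomial ℂ) (G0 G1 : MvPolynomial (Fin (n + 1)) ℂ) :
    MvPolynomial (Fin (n + 1)) ℂ :=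
  ∑ m ∈ Finset.range (e + 1), C (p.coeff m) * G1 ^ m * G0 ^ (e - m)

theorem hfo_hom {e m : ℕ} {p : Polynomial ℂ} {G0 G1 : MvPolynomial (Fin (n + 1)) ℂ}
    (h0 : G0.IsHomogeneous m) (h1 : G1.IsHomogeneous m) :
    (hfo e p G0 G1).IsHomogeneous (m * e) := by
  unfold hfo
  apply IsHomogeneous.sum
  intro i hi
  have h2 : (C (p.coeff i) * G1 ^ i * G0 ^ (e - i)).IsHomogeneous (0 + m * i + m * (e - i)) :=
    ((isHomogeneous_C _ _).mul (h1.pow i)).mul (h0.pow _)
  have h3 : 0 + m * i + m * (e - i) = m * e := by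
    have := Finset.mem_range.1 hi
    rw [zero_add, ← mul_add]
    congr 1
    omega
  rwa [h3] at h2

theorem hfo_eval (e : ℕ) (p : Polynomial ℂ) (G0 G1 : MvPolynomial (Fin (n + 1)) ℂ)
    (x : Fin (n + 1) → ℂ) : eval x (hfo e p G0 G1) = hm e p (eval x G0) (eval x G1) := by
  unfold hfo hm
  rw [map_sum]
  refine Finset.sum_congr rfl fun m _ => ?_
  rw [map_mul, map_mul, map_pow, map_pow, eval_C]

theorem hfo_val {K : Type} [Field K] [Algebra ℂ K] {y : Fin (n + 1) → K} {e : ℕ}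
    {p : Polynomial ℂ} (hp : p.natDegree ≤ e) {G0 G1 : MvPolynomial (Fin (n + 1)) ℂ} {t : K}
    (h0 : val y G0 ≠ 0) (ht : t = val y G1 / val y G0) :
    val y (hfo e p G0 G1) = (val y G0) ^ e * Polynomial.aeval t p := by
  unfold val at *
  unfold hfo
  rw [map_sum, Polynomial.aeval_eq_sum_range' (Nat.lt_succ_of_le hp), Finset.mul_sum]
  refine Finset.sum_congr rfl fun m hm => ?_
  have h1 : (aeval y G0) ^ e = (aeval y G0) ^ m * (aeval y G0) ^ (e - m) := by
    rw [← pow_add]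
    congr 1
    have := Finset.mem_range.1 hm
    omega
  rw [map_mul, map_mul, map_pow, map_pow, aeval_C, ht, Algebra.smul_def, h1, div_pow]
  have h2 : (aeval y G0) ^ m ≠ 0 := pow_ne_zero _ h0
  field_simp

theorem out_of {P : MvPolynomial (Fin (n + 1)) ℂ} {a : ℕ} (hP : P.IsHomogeneous a)
    {x v : Fin (n + 1) → ℂ} (hv : ∃ j, v j ≠ 0) (hPv : eval v P = 0) (hPx : eval x P ≠ 0) :
    ∃ j k, x j * v k ≠ x k * v j := by
  by_contra hcon
  push Not at hcon
  obtain ⟨k, hk⟩ := hv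
  have h1 : x = fun j => (x k / v k) * v j := by
    funext j
    rw [div_mul_eq_mul_div, eq_div_iff hk]
    exact hcon j k
  apply hPx
  rw [h1, ← Pool.Agent.N155.val_eval, val_smul _ hP, Pool.Agent.N155.val_eval, hPv, mul_zero]

/-- parallel holomorphic vectors -/
theorem ratio {f h : ℂ → Fin n → ℂ} (hf : Differentiable ℂ f) (hh : Differentiable ℂ h)
    (f0 : ∀ z, ∃ j, f z j ≠ 0) (h0 : ∀ z, ∃ j, h z j ≠ 0)
    (hpar : ∀ z j k, f z j * h z k = f z k * h z j) :
    ∃ g : ℂ → ℂ, Differentiable ℂ g ∧ (∀ z, g z ≠ 0) ∧ ∀ z i, g z * f z i = h z i := by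
  choose j hj using f0
  have h1 : ∀ z i, h z (j z) / f z (j z) * f z i = h z i := by
    intro z i
    rw [div_mul_eq_mul_div, div_eq_iff (hj z)]
    linear_combination hpar z i (j z)
  refine ⟨fun z => h z (j z) / f z (j z), fun z0 => ?_, fun z hz => ?_, h1⟩
  · have hfj : DifferentiableAt ℂ (fun z => f z (j z0)) z0 := differentiableAt_pi.1 (hf z0) _
    have hhj : DifferentiableAt ℂ (fun z => h z (j z0)) z0 := differentiableAt_pi.1 (hh z0) _
    refine (hhj.div hfj (hj z0)).congr_of_eventuallyEq ?_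
    filter_upwards [hfj.continuousAt.eventually_ne (hj z0)] with z hz
    show h z (j z) / f z (j z) = h z (j z0) / f z (j z0)
    rw [eq_div_iff hz, h1 z (j z0)]
  · obtain ⟨k, hk⟩ := h0 z
    apply hk
    have h2 := h1 z k
    simp only at hz
    rw [← h2, hz, zero_mul]

theorem reflect_eval {e : ℕ} {p : Polynomial ℂ} (hp : p.natDegree ≤ e) {t : ℂ} (ht : t ≠ 0) :
    (p.reflect e).eval t = t ^ e * p.eval t⁻¹ := by
  have h1 := hm_mul (p := p.reflect e) (e := e) (by
    refine Polynomial.natDegree_le_iff_coeff_eq_zero.2 fun m hm => ?_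
    rw [Polynomial.coeff_reflect, Polynomial.revAt_eq_self_of_lt hm]
    exact Polynomial.coeff_eq_zero_of_natDegree_lt (lt_of_le_of_lt hp hm)) 1 t
  rw [mul_one, one_pow, one_mul, hm_reflect] at h1
  have h2 := hm_mul hp t t⁻¹
  rw [inv_mul_cancel₀ ht] at h2
  rw [← h1, h2]

theorem reflect_deg {e : ℕ} {p : Polynomial ℂ} (hp : p.natDegree ≤ e) :
    (p.reflect e).natDegree ≤ e := by
  refine Polynomial.natDegree_le_iff_coeff_eq_zero.2 fun m hm => ?_
  rw [Polynomial.coeff_reflect, Polynomial.revAt_eq_self_of_lt hm]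
  exact Polynomial.coeff_eq_zero_of_natDegree_lt (lt_of_le_of_lt hp hm)

/-- **Factorization.** -/
theorem factor {K : Type} [Field K] [Algebra ℂ K] {y : Fin (n + 1) → K} (hgen : coords ℂ y = ⊤)
    {f : ℂ → Fin (n + 1) → ℂ} (hf : Differentiable ℂ f)
    (hrel : ∀ G : MvPolynomial (Fin (n + 1)) ℂ, IsForm G → (val y G = 0 ↔ ∀ z, eval (f z) G = 0))
    {P : MvPolynomial (Fin (n + 1)) ℂ} {a : ℕ} (ha : 1 ≤ a) (hP : P.IsHomogeneous a)
    (hPf : ∀ z, eval (f z) P ≠ 0) {ψ : Fin (n + 1) → Polynomial ℂ}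
    (hPψ : ∀ t : ℂ, t ≠ 0 → eval (fun j => (ψ j).eval t) P ≠ 0)
    (hnc : ∃ (t' t : ℂ) (i j : Fin (n + 1)), t' ≠ 0 ∧ t ≠ 0 ∧
        (ψ i).eval t' * (ψ j).eval t ≠ (ψ j).eval t' * (ψ i).eval t)
    (hco : ∀ x, ∃ j, (ψ j).eval x ≠ 0) {t lam : K} (htr : Transcendental ℂ t)
    (hψy : ∀ j, Polynomial.aeval t (ψ j) = lam * y j) :
    ∃ (ψ' : Fin (n + 1) → Polynomial ℂ) (u g : ℂ → ℂ),
      (∀ t : ℂ, t ≠ 0 → ∃ c t' : ℂ, c ≠ 0 ∧ t' ≠ 0 ∧ ∀ j, (ψ' j).eval t = c * (ψ j).eval t') ∧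
      (∀ t : ℂ, t ≠ 0 → ∃ c t' : ℂ, c ≠ 0 ∧ t' ≠ 0 ∧ ∀ j, (ψ j).eval t = c * (ψ' j).eval t') ∧
      Differentiable ℂ u ∧ Differentiable ℂ g ∧ (∀ z, g z ≠ 0) ∧
      ∀ z i, g z * f z i = (ψ' i).eval (u z) := by
  classical
  set e : ℕ := Finset.univ.sup (fun j => (ψ j).natDegree) with he
  have hdeg : ∀ k, (ψ k).natDegree ≤ e := fun k =>
    Finset.le_sup (f := fun j => (ψ j).natDegree) (Finset.mem_univ k)
  have he1 : 1 ≤ e := by
    by_contra hcon
    obtain ⟨t', t, i, j, -, -, hne⟩ := hnc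
    apply hne
    have h1 : ∀ k x x', (ψ k).eval x = (ψ k).eval x' := by
      intro k x x'
      have h2 : (ψ k).natDegree = 0 := by
        have := hdeg k
        omega
      rw [Polynomial.eq_C_of_natDegree_eq_zero h2, Polynomial.eval_C, Polynomial.eval_C]
    rw [h1 i t' t, h1 j t' t, mul_comm]
  obtain ⟨k0, -, hk0⟩ := Finset.exists_mem_eq_sup (Finset.univ : Finset (Fin (n + 1)))
    Finset.univ_nonempty (fun j => (ψ j).natDegree)
  have hk0' : (ψ k0).natDegree = e := by rw [he, hk0]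
  have hlead : ∃ j, (ψ j).coeff e ≠ 0 := by
    refine ⟨k0, ?_⟩
    have h1 : ψ k0 ≠ 0 := by
      intro h0
      rw [h0, Polynomial.natDegree_zero] at hk0'
      omega
    rw [← hk0']
    exact Polynomial.leadingCoeff_ne_zero.2 h1
  have hlow : ∃ j, (ψ j).coeff 0 ≠ 0 := by
    obtain ⟨j, hj⟩ := hco 0
    refine ⟨j, ?_⟩
    rwa [Polynomial.coeff_zero_eq_eval_zero]
  -- the parameter as a fraction
  obtain ⟨⟨m, G1, G0, hG1, hG0, hv0, hfr⟩⟩ := exists_frac hgen t
  have ht0 : t ≠ 0 := by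
    rintro rfl
    exact htr isAlgebraic_zero
  have hv1 : val y G1 ≠ 0 := by
    intro h0
    apply ht0
    rw [hfr, h0, zero_div]
  have hB0 : ∃ z, eval (f z) G0 ≠ 0 := by
    by_contra hcon
    push Not at hcon
    exact hv0 ((hrel _ ⟨_, hG0⟩).2 hcon)
  have hA0 : ∃ z, eval (f z) G1 ≠ 0 := by
    by_contra hcon
    push Not at hcon
    exact hv1 ((hrel _ ⟨_, hG1⟩).2 hcon)
  have hdiff : ∀ G : MvPolynomial (Fin (n + 1)) ℂ, Differentiable ℂ (fun z => eval (f z) G) := by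
    intro G
    have hfj : ∀ j, Differentiable ℂ (fun z => f z j) := fun j z => differentiableAt_pi.1 (hf z) j
    induction G using MvPolynomial.induction_on with
    | C c => simp only [eval_C]; exact differentiable_const c
    | add p q hp hq => simp only [map_add]; exact hp.add hq
    | mul_X p i hp => simp only [map_mul, eval_X]; exact hp.mul (hfj i)
  have hR : ∀ z j k, f z j * hm e (ψ k) (eval (f z) G0) (eval (f z) G1) =
      f z k * hm e (ψ j) (eval (f z) G0) (eval (f z) G1) := by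
    intro z j k
    have hhom : (X j * hfo e (ψ k) G0 G1 - X k * hfo e (ψ j) G0 G1).IsHomogeneous (1 + m * e) :=
      ((isHomogeneous_X _ _).mul (hfo_hom hG0 hG1)).sub
        ((isHomogeneous_X _ _).mul (hfo_hom hG0 hG1))
    have hval : val y (X j * hfo e (ψ k) G0 G1 - X k * hfo e (ψ j) G0 G1) = 0 := by
      have h1 : val y (X j * hfo e (ψ k) G0 G1 - X k * hfo e (ψ j) G0 G1) =
          y j * val y (hfo e (ψ k) G0 G1) - y k * val y (hfo e (ψ j) G0 G1) := by
        unfold val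
        rw [map_sub, map_mul, map_mul, aeval_X, aeval_X]
      rw [h1, hfo_val (hdeg k) hv0 hfr, hfo_val (hdeg j) hv0 hfr, hψy, hψy]
      ring
    have h2 := (hrel _ ⟨_, hhom⟩).1 hval z
    rw [map_sub, map_mul, map_mul, eval_X, eval_X, hfo_eval, hfo_eval] at h2
    exact sub_eq_zero.1 h2
  have hf0 : ∀ z, ∃ j, f z j ≠ 0 := by
    intro z
    by_contra hcon
    push Not at hcon
    apply hPf z
    have h1 : f z = fun j => (0 : ℂ) * f z j := by
      funext j
      rw [zero_mul, hcon j]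
    rw [h1, ← Pool.Agent.N155.val_eval, val_smul _ hP, zero_pow (by omega), zero_mul]
  -- the form `P` along `ψ`
  obtain ⟨c, k, hc, hck⟩ := Pool.Agent.K9h3.CV.monomial_of_roots
    (p := Pool.Agent.K9h3.CV.vl ψ P) (fun t ht => by
      rw [Pool.Agent.K9h3.CV.vl_eval]
      exact hPψ t ht)
  by_cases hk : k = a * e
  · -- reflect
    have hlow0 : eval (fun j => (ψ j).coeff 0) P = 0 := by
      have hae : a * e ≠ 0 := by positivity
      rw [← Pool.Agent.K9h3.CV.vl_zero, hck, Polynomial.coeff_C_mul, Polynomial.coeff_X_pow,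
        if_neg (by omega), mul_zero]
    have hcoe : ∀ j, ((ψ j).reflect e).coeff e = (ψ j).coeff 0 := by
      intro j
      rw [Polynomial.coeff_reflect, Polynomial.revAt_le le_rfl, Nat.sub_self]
    have hcoe0 : ∀ j, ((ψ j).reflect e).coeff 0 = (ψ j).coeff e := by
      intro j
      rw [Polynomial.coeff_reflect, Polynomial.revAt_le (Nat.zero_le _), Nat.sub_zero]
    obtain ⟨u, hu, hfu⟩ := core hf (ψ := fun j => (ψ j).reflect e) (e := e)
      (fun k => reflect_deg (hdeg k)) (hdiff G0) (hdiff G1) hA0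
      (fun z j k => by
        rw [hm_reflect, hm_reflect]
        exact hR z j k)
      (fun z => by
        simp only [hcoe]
        exact out_of hP hlow hlow0 (hPf z))
    have hne : ∀ x, ∃ j, ((ψ j).reflect e).eval x ≠ 0 := by
      intro x
      by_cases hx : x = 0
      · obtain ⟨j, hj⟩ := hlead
        refine ⟨j, ?_⟩
        rw [hx, ← Polynomial.coeff_zero_eq_eval_zero, hcoe0]
        exact hj
      · obtain ⟨j, hj⟩ := hco x⁻¹
        refine ⟨j, ?_⟩
        rw [reflect_eval (hdeg j) hx]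
        exact mul_ne_zero (pow_ne_zero _ hx) hj
    obtain ⟨g, hg, hg0, hgf⟩ := ratio hf (h := fun z j => ((ψ j).reflect e).eval (u z))
      (differentiable_pi.2 fun j => ((ψ j).reflect e).differentiable.comp hu) hf0
      (fun z => hne (u z)) hfu
    refine ⟨fun j => (ψ j).reflect e, u, g, fun t ht => ⟨t ^ e, t⁻¹, pow_ne_zero _ ht,
      inv_ne_zero ht, fun j => reflect_eval (hdeg j) ht⟩, fun t ht => ⟨t ^ e, t⁻¹,
      pow_ne_zero _ ht, inv_ne_zero ht, fun j => ?_⟩, hu, hg, hg0, hgf⟩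
    rw [reflect_eval (hdeg j) (inv_ne_zero ht), inv_inv, ← mul_assoc, ← mul_pow,
      mul_inv_cancel₀ ht, one_pow, one_mul]
  · have hkl : k ≤ a * e := by
      have h1 := Pool.Agent.K9h3.CV.vl_deg hdeg hP
      rw [hck, Polynomial.natDegree_C_mul_X_pow _ _ hc] at h1
      exact h1
    have htop0 : eval (fun j => (ψ j).coeff e) P = 0 := by
      rw [← Pool.Agent.K9h3.CV.vl_top hdeg hP, hck, Polynomial.coeff_C_mul, Polynomial.coeff_X_pow,
        if_neg (by omega), mul_zero]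
    obtain ⟨u, hu, hfu⟩ := core hf hdeg (hdiff G1) (hdiff G0) hB0 hR
      (fun z => out_of hP hlead htop0 (hPf z))
    obtain ⟨g, hg, hg0, hgf⟩ := ratio hf (h := fun z j => (ψ j).eval (u z))
      (differentiable_pi.2 fun j => (ψ j).differentiable.comp hu) hf0
      (fun z => hco (u z)) hfu
    exact ⟨ψ, u, g, fun t ht => ⟨1, t, one_ne_zero, ht, fun j => (one_mul _).symm⟩,
      fun t ht => ⟨1, t, one_ne_zero, ht, fun j => (one_mul _).symm⟩, hu, hg, hg0, hgf⟩

end Pool.Agent.K9h3.KH
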