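import Pool.Agent.K9h3.KH.A
import Pool.Agent.K9h3.KH.B
import Pool.Agent.K9h3.KH.I

/-!
# Curves of bounded speed in the members of the pencil are contained in images of the punctured line
-/

set_option autoImplicit false

namespace Pool.Agent.K9h3.KH

open Filter Topology Metric Set
open FF MvPolynomial Pool.Agent.W602.GT Pool.Agent.N155 Pool.Agent.W603.LV
open Pool.Agent.Y190.OP (Mat HolP Phi Phi_smul Phi_inj nsq_ne contDiffAt_Phi)
open Pool.Agent.K9h84.CI (PP VV gcp gr CurveIn BoundedSpeed Nonconst FibresRigid AlgRigid SmoothPair)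

section

variable {n : ℕ}

/-- bounded speed in terms of the matrices -/
theorem bound_phi {f : ℂ → Fin (n + 1) → ℂ} (hf : Differentiable ℂ f) (hne : ∀ z, f z ≠ 0) {B : ℝ}
    (hB : ∀ z i j, ‖f z i * deriv f z j - f z j * deriv f z i‖ ≤ B * ‖f z‖ ^ 2) :
    ∃ C : ℝ, ∀ z, ‖fderiv ℝ (fun z => (Phi (f z) : Mat (n + 1))) z‖ ≤ C := by
  set Kc : Set (Fin (n + 1) → ℂ) := closedBall 0 1 ∩ ⋃ i, {v | v i = 1} with hKc
  have hcomp : IsCompact Kc := (isCompact_closedBall 0 1).inter_right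
    (isClosed_iUnion_of_finite fun i => isClosed_eq (continuous_apply i) continuous_const)
  have hne1 : ∀ v ∈ Kc, v ≠ 0 := by
    rintro v ⟨-, hv⟩ rfl
    obtain ⟨i, hi⟩ := mem_iUnion.1 hv
    exact zero_ne_one hi
  have hco : ContinuousOn (fderiv ℝ (Phi : (Fin (n + 1) → ℂ) → Mat (n + 1))) Kc := fun v hv =>
    (((contDiffAt_Phi (hne1 v hv)).fderiv_right (m := 0) (by norm_num)).continuousAt).continuousWithinAt
  obtain ⟨L, hL⟩ := hcomp.exists_bound_of_continuousOn hco
  refine ⟨|L| * |B|, fun z => ?_⟩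
  have hgz : f z ≠ 0 := hne z
  obtain ⟨i, hi⟩ := Finite.exists_max fun i => ‖f z i‖
  have hgi : f z i ≠ 0 := by
    intro h0
    apply hgz
    funext j
    have := hi j
    rw [h0, norm_zero] at this
    exact norm_le_zero_iff.1 this
  have hnorm : ‖f z‖ = ‖f z i‖ := by
    apply le_antisymm
    · rw [pi_norm_le_iff_of_nonneg (norm_nonneg _)]
      exact hi
    · exact norm_le_pi_norm _ i
  have hdj : ∀ j, HasDerivAt (fun w => f w j) (deriv f z j) z := fun j =>
    hasDerivAt_pi.1 (hf z).hasDerivAt j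
  set v : ℂ → Fin (n + 1) → ℂ := fun w => (f w i)⁻¹ • f w with hv
  set v' : Fin (n + 1) → ℂ := fun j => (f z i * deriv f z j - f z j * deriv f z i) / (f z i) ^ 2
    with hv'
  have hvd : HasDerivAt v v' z := by
    rw [hasDerivAt_pi]
    intro j
    have h1 := ((hdj i).inv hgi).mul (hdj j)
    refine h1.congr_deriv ?_
    have h2 : (fun w => f w i)⁻¹ z = (f z i)⁻¹ := rfl
    rw [hv', h2]
    field_simp
    ring
  have hvz : v z ∈ Kc := by
    constructor
    · rw [mem_closedBall_zero_iff, pi_norm_le_iff_of_nonneg zero_le_one]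
      intro j
      change ‖(f z i)⁻¹ * f z j‖ ≤ 1
      rw [norm_mul, norm_inv, inv_mul_le_iff₀ (norm_pos_iff.2 hgi), mul_one]
      exact hi j
    · exact mem_iUnion.2 ⟨i, inv_mul_cancel₀ hgi⟩
  have hv'b : ‖v'‖ ≤ |B| := by
    rw [pi_norm_le_iff_of_nonneg (by positivity)]
    intro j
    rw [hv', norm_div, norm_pow, div_le_iff₀ (by positivity)]
    refine (hB z i j).trans ?_
    rw [hnorm]
    exact mul_le_mul_of_nonneg_right (le_abs_self B) (by positivity)
  have hcong : (fun w => (Phi (f w) : Mat (n + 1))) =ᶠ[𝓝 z] fun w => Phi (v w) := by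
    have hci : ContinuousAt (fun w => f w i) z := (hdj i).continuousAt
    filter_upwards [hci.eventually_ne hgi] with w hwi
    exact (Phi_smul (inv_ne_zero hwi) _).symm
  rw [hcong.fderiv_eq]
  have hPd : DifferentiableAt ℝ (Phi : (Fin (n + 1) → ℂ) → Mat (n + 1)) (v z) :=
    (contDiffAt_Phi (hne1 _ hvz)).differentiableAt (by norm_num)
  have h3 := hvd.hasFDerivAt.restrictScalars ℝ
  have h4 := (hPd.hasFDerivAt.comp z h3).fderiv
  change ‖fderiv ℝ (Phi ∘ v) z‖ ≤ _
  rw [h4]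
  refine ContinuousLinearMap.opNorm_le_bound _ (by positivity) fun x => ?_
  rw [ContinuousLinearMap.comp_apply]
  refine (ContinuousLinearMap.le_opNorm _ _).trans ?_
  have h5 : ‖(ContinuousLinearMap.toSpanSingleton ℂ v').restrictScalars ℝ x‖ ≤ |B| * ‖x‖ := by
    rw [ContinuousLinearMap.coe_restrictScalars', ContinuousLinearMap.toSpanSingleton_apply,
      norm_smul, mul_comm]
    exact mul_le_mul_of_nonneg_right hv'b (norm_nonneg _)
  rw [mul_assoc]
  exact mul_le_mul ((hL _ hvz).trans (le_abs_self L)) h5 (norm_nonneg _) (abs_nonneg L)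

end

variable {s : ℕ} {R : Fin s → PP s} {P Q : PP s} {d : Fin s → ℕ} {a b : ℕ}

/-- a curve in a member of the pencil along which the Jacobian vector vanishes is constant -/
theorem const_of_N (ha : 1 ≤ a) (hb : 1 ≤ b) (hab : s + 4 ≤ a + b + ∑ i, d i)
    (h : SmoothPair R P Q d a b) {f : ℂ → Fin (s + 3) → ℂ} (hf : CurveIn R P Q f) {c : ℂ}
    (hfib : ∀ z, eval (f z) Q ^ a = c * eval (f z) P ^ b)
    (hN : ∀ z, (h.toPair ha hb hab).N (f z) = 0) : ¬ Nonconst f := by
  rintro ⟨z, w, i, j, hne⟩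
  have hnz : ∀ z, f z ≠ 0 := fun z h0 => hf.offP z (by
    rw [h0]
    exact (h.toPair ha hb hab).p_zero)
  obtain ⟨cl, hcl, hlow⟩ := (h.toPair ha hb hab).N_lower
  have hlow' : ∀ z, cl * ‖f z‖ ^ (a + b) ≤ ‖eval (f z) P‖ * ‖eval (f z) Q‖ := by
    intro z
    rcases hlow (f z) (hnz z) (hf.on z) with h1 | h1
    · exfalso
      rw [hN z, norm_zero] at h1
      have h2 : 0 < ‖f z‖ := norm_pos_iff.2 (hnz z)
      have h3 : 0 < cl * ‖f z‖ ^ ((h.toPair ha hb hab).k + 1) := by positivity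
      linarith
    · exact h1
  -- the bound of the ratio
  set C2 : ℝ := ‖c‖ / cl ^ a with hC2
  have hbd : ∀ z, ‖f z‖ ^ a ≤ max 1 C2 * ‖eval (f z) P‖ := by
    intro z
    have hp : 0 < ‖eval (f z) P‖ := norm_pos_iff.2 (hf.offP z)
    set x : ℝ := ‖f z‖ ^ a / ‖eval (f z) P‖ with hx
    have hx0 : 0 ≤ x := by positivity
    have h1 := pow_le_pow_left₀ (by positivity) (hlow' z) a
    rw [mul_pow, mul_pow] at h1
    have h2 : ‖eval (f z) Q‖ ^ a = ‖c‖ * ‖eval (f z) P‖ ^ b := by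
      rw [← norm_pow, hfib z, norm_mul, norm_pow]
    rw [h2] at h1
    have h3 : x ^ (a + b) ≤ C2 := by
      rw [hx, hC2, div_pow, div_le_div_iff₀ (by positivity) (by positivity)]
      have h4 : (‖f z‖ ^ a) ^ (a + b) * cl ^ a = cl ^ a * (‖f z‖ ^ (a + b)) ^ a := by
        rw [← pow_mul, ← pow_mul, mul_comm a (a + b), mul_comm]
      rw [h4]
      refine h1.trans (le_of_eq ?_)
      rw [pow_add]
      ring
    have h4 : x ≤ max 1 C2 := by
      rcases le_or_gt x 1 with h5 | h5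
      · exact h5.trans (le_max_left _ _)
      · exact ((le_self_pow₀ h5.le (by omega)).trans h3).trans (le_max_right _ _)
    rw [hx, div_le_iff₀ hp] at h4
    exact h4
  -- the quotients are constant
  have hcon : ∀ i, f z i * f z j ^ (a - 1) * eval (f w) P = f w i * f w j ^ (a - 1) * eval (f z) P := by
    intro i
    have hd : Differentiable ℂ (fun z => f z i * f z j ^ (a - 1) / eval (f z) P) := by
      have h1 : ∀ k, Differentiable ℂ (fun z => f z k) := fun k z =>
        differentiableAt_pi.1 (hf.entire z) k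
      have h2 : Differentiable ℂ (fun z => eval (f z) P) := fun z =>
        ((h.toPair ha hb hab).hA.hasDerivAt (hf.entire z).hasDerivAt).differentiableAt
      exact ((h1 i).mul ((h1 j).pow _)).div h2 hf.offP
    have h1 := hd.apply_eq_apply_of_bounded (by
      rw [isBounded_iff_forall_norm_le]
      refine ⟨max 1 C2, ?_⟩
      rintro _ ⟨y, rfl⟩
      have hp : 0 < ‖eval (f y) P‖ := norm_pos_iff.2 (hf.offP y)
      rw [norm_div, norm_mul, norm_pow, div_le_iff₀ hp]
      refine le_trans ?_ (hbd y)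
      have h3 : ‖f y‖ ^ a = ‖f y‖ * ‖f y‖ ^ (a - 1) := by
        rw [← pow_succ']
        congr 1
        omega
      rw [h3]
      exact mul_le_mul (norm_le_pi_norm _ i) (pow_le_pow_left₀ (norm_nonneg _)
        (norm_le_pi_norm _ j) _) (by positivity) (norm_nonneg _)) z w
    rw [div_eq_div_iff (hf.offP z) (hf.offP w)] at h1
    exact h1
  have h1 := hcon i
  have h2 := hcon j
  have e : ∀ t : ℂ, t * t ^ (a - 1) = t ^ a := fun t => by
    rw [← pow_succ']
    congr 1
    omega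
  rw [e, e] at h2
  apply hne
  by_cases hz : f z j = 0
  · have h3 : f w j = 0 := by
      rw [hz, zero_pow (by omega), zero_mul] at h2
      have h4 := (mul_eq_zero.1 h2.symm).resolve_right (hf.offP z)
      exact eq_zero_of_pow_eq_zero h4
    rw [hz, h3, mul_zero, zero_mul]
  · have h3 : f w j ^ a * eval (f z) P ≠ 0 := by
      rw [← h2]
      exact mul_ne_zero (pow_ne_zero _ hz) (hf.offP w)
    apply mul_right_cancel₀ h3
    rw [← e (f w j)]
    have h4 := e (f z j)
    have h5 := e (f w j)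
    calc f z i * f w j * (f w j * f w j ^ (a - 1) * eval (f z) P)
        = f z i * f w j * (f z j ^ a * eval (f w) P) := by rw [h5, h2]
      _ = (f z i * f z j ^ (a - 1) * eval (f w) P) * (f z j * f w j) := by rw [← h4]; ring
      _ = (f w i * f w j ^ (a - 1) * eval (f z) P) * (f z j * f w j) := by rw [h1]
      _ = f z j * f w i * (f w j * f w j ^ (a - 1) * eval (f z) P) := by ring

/-- the two forms as a family of boundaries -/
noncomputable def bnd (P Q : PP s) : Fin 2 → Unit → PP s := fun k _ => if k = 0 then P else Q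

/-- **A nonconstant curve of bounded speed in a member of the pencil has the same Zariski closure as
an algebraic image of the punctured line.** -/
theorem fibre_alg (ha : 1 ≤ a) (hb : 1 ≤ b) (hab : s + 4 ≤ a + b + ∑ i, d i)
    (h : SmoothPair R P Q d a b) {f : ℂ → Fin (s + 3) → ℂ} (hf : CurveIn R P Q f)
    (hB : BoundedSpeed f) {c : ℂ} (hc : c ≠ 0)
    (hfib : ∀ z, eval (f z) Q ^ a = c * eval (f z) P ^ b) (hnc : Nonconst f) :
    ∃ (ψ : Fin (s + 3) → Polynomial ℂ) (u g : ℂ → ℂ),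
      (∀ t : ℂ, t ≠ 0 → (∀ i, eval (fun i => (ψ i).eval t) (R i) = 0) ∧
        eval (fun i => (ψ i).eval t) P ≠ 0 ∧ eval (fun i => (ψ i).eval t) Q ≠ 0) ∧
      (∃ (t' t : ℂ) (i j : Fin (s + 3)), t' ≠ 0 ∧ t ≠ 0 ∧
        (ψ i).eval t' * (ψ j).eval t ≠ (ψ j).eval t' * (ψ i).eval t) ∧
      (∀ G : PP s, (∃ m, G.IsHomogeneous m) →
        ((∀ z, eval (f z) G = 0) ↔ ∀ t : ℂ, t ≠ 0 → eval (fun i => (ψ i).eval t) G = 0)) ∧
      Differentiable ℂ u ∧ Differentiable ℂ g ∧ (∀ z, g z ≠ 0) ∧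
      ∀ z i, g z * f z i = (ψ i).eval (u z) := by
  classical
  have hnz : ∀ z, f z ≠ 0 := fun z h0 => hf.offP z (by
    rw [h0]
    exact (h.toPair ha hb hab).p_zero)
  let φ : ℂ → Mat (s + 2 + 1) := fun z => Phi (f z)
  have hol : HolP univ φ := fun z _ =>
    ⟨univ, f, isOpen_univ, mem_univ _, hf.entire.differentiableOn, fun w _ => ⟨hnz w, rfl⟩⟩
  obtain ⟨B, hB⟩ := hB
  obtain ⟨CB, hC⟩ := bound_phi hf.entire hnz hB
  obtain ⟨K1, _, _, w, y1, hy1, hgen, hw, hrel, hw0⟩ := exists_closure hol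
  have hrel' : ∀ G : PP s, IsForm G → (val y1 G = 0 ↔ ∀ z, eval (f z) G = 0) := by
    rintro G ⟨m, hG⟩
    rw [hrel G ⟨m, hG⟩]
    refine forall_congr' fun z => ?_
    change ¬ nz G (Phi (f z)) ↔ _
    rw [nz_Phi hG (hnz z), not_not]
  have hR0 : ∀ i, val y1 (R i) = 0 := fun i =>
    (hrel' _ ⟨_, h.homR i⟩).2 fun z => hf.on z i
  have hP0 : val y1 P ≠ 0 := fun h0 => hf.offP 0 ((hrel' _ ⟨_, h.homP⟩).1 h0 0)
  have hQ0 : val y1 Q ≠ 0 := fun h0 => hf.offQ 0 ((hrel' _ ⟨_, h.homQ⟩).1 h0 0)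
  have hHh : (Q ^ a - C c * P ^ b : PP s).IsHomogeneous (b * a) := by
    have h1 : (Q ^ a).IsHomogeneous (b * a) := h.homQ.pow a
    have h2 : (C c * P ^ b : PP s).IsHomogeneous (0 + a * b) :=
      (isHomogeneous_C _ _).mul (h.homP.pow b)
    rw [zero_add, mul_comm a b] at h2
    exact h1.sub h2
  have hH0 : val y1 (Q ^ a - C c * P ^ b : PP s) = 0 := (hrel' _ ⟨_, hHh⟩).2 fun z => by
    rw [map_sub, map_mul, map_pow, map_pow, eval_C, hfib z, sub_self]
  -- the dimension is at least one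
  have hw1 : w ≠ 0 := by
    intro h0
    obtain ⟨z, z', i, j, hne⟩ := hnc
    apply hne
    have h1 : φ z = φ z' := (hw0 h0 z).trans (hw0 h0 z').symm
    obtain ⟨e, -, he⟩ := Phi_inj (hnz z) (hnz z') h1
    rw [he]
    simp only [Pi.smul_apply, smul_eq_mul]
    ring
  -- the dimension is at most one
  have hw2 : w < 2 := by
    by_contra hcon
    push Not at hcon
    have h1 := dep (n := s + 2) (y := y1) hy1 hgen hw hcon (r := s + 1) (by omega)
      (Fin.cons (α := fun _ => PP s) (Q ^ a - C c * P ^ b) R : Fin (s + 1) → PP s)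
      (Fin.cons (α := fun _ => ℕ) (b * a) d : Fin (s + 1) → ℕ)
      (fun i => by
        refine Fin.cases ?_ (fun i => ?_) i
        · exact hHh
        · exact h.homR i)
      (fun i => by
        refine Fin.cases ?_ (fun i => ?_) i
        · exact hH0
        · exact hR0 i)
    have h2 := dep_pencil hb hc hP0 h1
    refine const_of_N ha hb hab h hf hfib (fun z => ?_) hnc
    funext l
    have h3 : val y1 (NP (h.toPair ha hb hab).F l) = 0 := NP_val h2 l
    have h4 := (hrel' _ ⟨_, NP_hom (h.toPair ha hb hab).hF l⟩).1 h3 z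
    rw [NP_eval] at h4
    exact h4
  obtain rfl : w = 1 := by omega
  have hff : IsFF ℂ K1 := ⟨ess_of_coords hgen, by rw [hw, Nat.cast_one]⟩
  have hcv : Cv y1 φ := by
    refine ⟨hol, fun z => ⟨f z, ⟨hnz z, fun G hG h0 => ?_⟩, rfl⟩, fun G hG hv => ?_⟩
    · rw [Pool.Agent.N155.val_eval]
      exact (hrel' G hG).1 h0 z
    · by_contra hcon
      push Not at hcon
      exact hv ((hrel G hG).2 hcon)
  have hform : ∀ k l, IsForm (bnd P Q k l) := by
    intro k l
    unfold bnd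
    split_ifs
    · exact ⟨_, h.homP⟩
    · exact ⟨_, h.homQ⟩
  have hbv : ∀ k l, val y1 (bnd P Q k l) ≠ 0 := by
    intro k l
    unfold bnd
    split_ifs
    · exact hP0
    · exact hQ0
  have hnot := strat_curve (G := bnd P Q) hform hgen hcv (fun k => Or.inl fun z => by
    change Phi (f z) ∈ SG (bnd P Q k)
    rw [mem_SG_Phi (hform k) (hnz z)]
    refine ⟨(), ?_⟩
    rw [Pool.Agent.N155.val_eval]
    unfold bnd
    split_ifs
    · exact hf.offP z
    · exact hf.offQ z) hC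
  -- the places without centre
  have hfin : {P' : Place ℂ K1 | ¬ StratumCentre (bnd P Q) y1 P'}.Finite := by
    have h1 : {P' : Place ℂ K1 | ¬ StratumCentre (bnd P Q) y1 P'} ⊆
        ⋃ k, {P' : Place ℂ K1 | ¬ HasCentre (bnd P Q k) y1 P'} := by
      intro P' hP'
      rw [mem_iUnion]
      by_contra hcon
      push Not at hcon
      apply hP'
      intro k _
      by_contra h2
      exact hcon k h2
    exact (Set.finite_iUnion fun k => finite_noncentre (hform k) hy1 (hbv k ())).subset h1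
  have hmem : ∀ z : Place ℂ K1, z ∉ hfin.toFinset → ∀ k, HasCentre (bnd P Q k) y1 z := by
    intro z hz k
    rw [Set.Finite.mem_toFinset] at hz
    by_contra hcon
    exact hz fun h1 => hcon (h1 k ⟨(), hbv k ()⟩)
  have hregP : ∀ z : Place ℂ K1, z ∉ hfin.toFinset → ∀ j, z.Reg (y1 j ^ a / val y1 P) := by
    intro z hz j
    have h1 := hmem z hz 0
    exact reg_of_centre (κ := Unit) h.homP h1 j
  have hregQ : ∀ z : Place ℂ K1, z ∉ hfin.toFinset → ∀ j, z.Reg (y1 j ^ b / val y1 Q) := by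
    intro z hz j
    have h1 := hmem z hz 1
    exact reg_of_centre (κ := Unit) h.homQ h1 j
  have hne : hfin.toFinset.Nonempty := by
    obtain ⟨z, j, hz⟩ := exists_noncentre hgen ha hP0
    refine ⟨z, ?_⟩
    by_contra hcon
    exact hz (hregP z hcon j)
  have hdeg : canDeg ℂ K1 + hfin.toFinset.card ≤ 0 := by
    by_contra hcon
    rw [not_le] at hcon
    apply hnot
    refine lgt_mono (fun z hz => ?_) (Pool.Agent.Q96.LS.lgt_one hfin.toFinset hcon)
    exact (Set.Finite.mem_toFinset hfin).1 hz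
  obtain ⟨ψ0, h1, h2, ⟨t1, t2, i0, j0, ht1, ht2, h3⟩, hco, t, lam, htr, -, hψy⟩ :=
    exists_coord hy1 hgen hne hdeg
  obtain ⟨ψ, u, g, c1, c2, hu, hg, hg0, hgf⟩ := factor hgen hf.entire
    (fun G hG => hrel' G hG) ha h.homP hf.offP (h2 P a ha h.homP hP0 hregP)
    ⟨t1, t2, i0, j0, ht1, ht2, h3⟩ hco htr hψy
  have hev : ∀ (G : PP s) (m : ℕ), G.IsHomogeneous m → ∀ (c : ℂ) (x y : Fin (s + 3) → ℂ),
      (∀ j, x j = c * y j) → eval x G = c ^ m * eval y G := by
    intro G m hG c x y hxy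
    rw [show x = fun j => c * y j from funext hxy]
    rw [← Pool.Agent.N155.val_eval, ← Pool.Agent.N155.val_eval]
    exact val_smul (n := s + 2) c hG
  refine ⟨ψ, u, g, fun t ht => ?_, ?_, fun G hG => ?_, hu, hg, hg0, hgf⟩
  · obtain ⟨c', t', hc', ht', hct⟩ := c1 t ht
    refine ⟨fun i => ?_, ?_, ?_⟩
    · rw [hev _ _ (h.homR i) _ _ _ hct, (h1 _ ⟨_, h.homR i⟩).1 (hR0 i) t' ht', mul_zero]
    · rw [hev _ _ h.homP _ _ _ hct]
      exact mul_ne_zero (pow_ne_zero _ hc') (h2 P a ha h.homP hP0 hregP t' ht')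
    · rw [hev _ _ h.homQ _ _ _ hct]
      exact mul_ne_zero (pow_ne_zero _ hc') (h2 Q b hb h.homQ hQ0 hregQ t' ht')
  · obtain ⟨x1, y1', hx1, hy1', hxy1⟩ := c2 t1 ht1
    obtain ⟨x2, y2, hx2, hy2, hxy2⟩ := c2 t2 ht2
    refine ⟨y1', y2, i0, j0, hy1', hy2, fun h0 => h3 ?_⟩
    rw [hxy1, hxy1, hxy2, hxy2]
    linear_combination x1 * x2 * h0
  · rw [← hrel' G hG, h1 G hG]
    obtain ⟨m, hG⟩ := hG
    constructor
    · intro h0 t ht
      obtain ⟨c', t', -, ht', hct⟩ := c1 t ht
      rw [hev G m hG _ _ _ hct, h0 t' ht', mul_zero]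
    · intro h0 t ht
      obtain ⟨c', t', -, ht', hct⟩ := c2 t ht
      rw [hev G m hG _ _ _ hct, h0 t' ht', mul_zero]

/-- **The members of the pencil are rigid if there are no algebraic images of the punctured line.** -/
theorem fibres_rigid (ha : 1 ≤ a) (hb : 1 ≤ b) (hab : s + 4 ≤ a + b + ∑ i, d i)
    (h : SmoothPair R P Q d a b) (hr : AlgRigid R P Q) : FibresRigid R P Q a b := by
  rintro f hf hB ⟨c, hc, hfib⟩ hnc
  obtain ⟨ψ, _, _, h1, ⟨t', t, i, j, ht', ht, hne⟩, -⟩ := fibre_alg ha hb hab h hf hB hc hfib hnc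
  exact hne (hr ψ h1 t' t i j ht' ht)

end Pool.Agent.K9h3.KH
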