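import Pool.Agent.K9h3.KH.C
import Pool.Agent.K9h84.CI.VgE

/-!
# The criterion without conditions on the degrees and on the fibres, and the structure of the curves
of bounded speed
-/

set_option autoImplicit false

namespace Pool.Agent.K9h3.KH

open Filter Topology Metric Set
open MvPolynomial
open Pool.Agent.K9h84.CI (PP VV CurveIn BoundedSpeed Nonconst FibresRigid AlgRigid SmoothPair
  HypEmbedded)

variable {s : ℕ} {R : Fin s → PP s} {P Q : PP s} {d : Fin s → ℕ} {a b : ℕ}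

/-- **Criterion.** -/
theorem criterion (ha : 1 ≤ a) (hb : 1 ≤ b) (hab : s + 4 ≤ a + b + ∑ i, d i)
    (h : SmoothPair R P Q d a b) : HypEmbedded R P Q ↔ AlgRigid R P Q :=
  ⟨fun hyp => (Pool.Agent.K9h84.CI.criterion ha hb hab h
      (Or.inr fun _ hf _ _ => hyp.const h ha hb hab hf)).1 hyp,
    fun hr => (Pool.Agent.K9h84.CI.criterion ha hb hab h
      (Or.inr (fibres_rigid ha hb hab h hr))).2 hr⟩

/-- the algebraic maps from the punctured line to the members of the pencil are constant -/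
def AlgFibresRigid (R : Fin s → MvPolynomial (Fin (s + 3)) ℂ) (P Q : MvPolynomial (Fin (s + 3)) ℂ)
    (a b : ℕ) : Prop :=
  ∀ ψ : Fin (s + 3) → Polynomial ℂ,
    (∀ t : ℂ, t ≠ 0 → (∀ i, MvPolynomial.eval (fun i => (ψ i).eval t) (R i) = 0) ∧
      MvPolynomial.eval (fun i => (ψ i).eval t) P ≠ 0 ∧
      MvPolynomial.eval (fun i => (ψ i).eval t) Q ≠ 0) →
    (∃ c : ℂ, c ≠ 0 ∧ ∀ t : ℂ, t ≠ 0 → MvPolynomial.eval (fun i => (ψ i).eval t) Q ^ a =
      c * MvPolynomial.eval (fun i => (ψ i).eval t) P ^ b) →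
    ∀ (t' t : ℂ) (i j : Fin (s + 3)), t' ≠ 0 → t ≠ 0 →
      (ψ i).eval t' * (ψ j).eval t = (ψ j).eval t' * (ψ i).eval t

/-- the algebraic condition on the fibres implies the analytic one -/
theorem fibres_rigid' (ha : 1 ≤ a) (hb : 1 ≤ b) (hab : s + 4 ≤ a + b + ∑ i, d i)
    (h : SmoothPair R P Q d a b) (hr : AlgFibresRigid R P Q a b) : FibresRigid R P Q a b := by
  rintro f hf hB ⟨c, hc, hfib⟩ hnc
  obtain ⟨ψ, _, _, h1, ⟨t', t, i, j, ht', ht, hne⟩, h2, -⟩ :=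
    fibre_alg ha hb hab h hf hB hc hfib hnc
  have hHh : (Q ^ a - C c * P ^ b : PP s).IsHomogeneous (b * a) := by
    have h3 : (Q ^ a).IsHomogeneous (b * a) := h.homQ.pow a
    have h4 : (C c * P ^ b : PP s).IsHomogeneous (0 + a * b) :=
      (isHomogeneous_C _ _).mul (h.homP.pow b)
    rw [zero_add, mul_comm a b] at h4
    exact h3.sub h4
  have h3 := (h2 _ ⟨_, hHh⟩).1 fun z => by
    rw [map_sub, map_mul, map_pow, map_pow, eval_C, hfib z, sub_self]
  exact hne (hr ψ h1 ⟨c, hc, fun t ht => by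
    have h4 := h3 t ht
    rw [map_sub, map_mul, map_pow, map_pow, eval_C] at h4
    exact sub_eq_zero.1 h4⟩ t' t i j ht' ht)

/-- **Curves of bounded speed.** -/
theorem brody_alg (ha : 1 ≤ a) (hb : 1 ≤ b) (hab : s + 4 ≤ a + b + ∑ i, d i)
    (h : SmoothPair R P Q d a b) {f : ℂ → Fin (s + 3) → ℂ} (hf : CurveIn R P Q f)
    (hB : BoundedSpeed f) (hnc : Nonconst f) :
    ∃ (ψ : Fin (s + 3) → Polynomial ℂ) (u g : ℂ → ℂ),
      (∀ t : ℂ, t ≠ 0 → (∀ i, eval (fun i => (ψ i).eval t) (R i) = 0) ∧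
        eval (fun i => (ψ i).eval t) P ≠ 0 ∧ eval (fun i => (ψ i).eval t) Q ≠ 0) ∧
      (∃ (t' t : ℂ) (i j : Fin (s + 3)), t' ≠ 0 ∧ t ≠ 0 ∧
        (ψ i).eval t' * (ψ j).eval t ≠ (ψ j).eval t' * (ψ i).eval t) ∧
      Differentiable ℂ u ∧ Differentiable ℂ g ∧ (∀ z, g z ≠ 0) ∧
      (∀ z i, g z * f z i = (ψ i).eval (u z)) ∧
      ((∃ c : ℂ, c ≠ 0 ∧ ∀ z, eval (f z) Q ^ a = c * eval (f z) P ^ b) ∨
        ∃ c : ℂ, c ≠ 0 ∧ ∀ z, u z = Complex.exp (c * z)) := by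
  have hk : 1 ≤ (h.toPair ha hb hab).k := by
    show 1 ≤ a + b + ∑ i, d i - (s + 3)
    omega
  obtain ⟨B, hB'⟩ := hB.bro
  rcases (h.toPair ha hb hab).main hk hf.entire hf.on hf.offP hf.offQ hB' with
    ⟨c, hc, hfib⟩ | ⟨c, ψ, g, hc, hg, hg0, hψ⟩
  · obtain ⟨ψ, u, g, h1, h2, -, h3, h4, h5, h6⟩ := fibre_alg ha hb hab h hf hB hc hfib hnc
    exact ⟨ψ, u, g, h1, h2, h3, h4, h5, h6, Or.inl ⟨c, hc, hfib⟩⟩
  · have hev : ∀ t : ℂ, t ≠ 0 → (fun i => (ψ i).eval t) =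
        g (Complex.log t / c) • f (Complex.log t / c) := by
      intro t ht
      funext i
      have h3 := hψ (Complex.log t / c) i
      have e1 : c * (Complex.log t / c) = Complex.log t := by field_simp
      rw [e1, Complex.exp_log ht] at h3
      rw [← h3]
      rfl
    have hsm : ∀ (G : PP s) (m : ℕ), G.IsHomogeneous m → ∀ (l : ℂ) (x : VV s),
        eval (l • x) G = l ^ m * eval x G := fun G m hG l x => by
      obtain ⟨A, hA⟩ := Pool.Agent.K9h84.CI.exists_dd hG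
      exact hA.evh l x
    refine ⟨ψ, fun z => Complex.exp (c * z), g, fun t ht => ?_, ?_,
      Complex.differentiable_exp.comp (differentiable_id.const_mul c), hg, hg0, hψ,
      Or.inr ⟨c, hc, fun _ => rfl⟩⟩
    · rw [hev t ht]
      refine ⟨fun i => ?_, ?_, ?_⟩
      · rw [hsm _ _ (h.homR i), hf.on, mul_zero]
      · rw [hsm _ _ h.homP]
        exact mul_ne_zero (pow_ne_zero _ (hg0 _)) (hf.offP _)
      · rw [hsm _ _ h.homQ]
        exact mul_ne_zero (pow_ne_zero _ (hg0 _)) (hf.offQ _)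
    · obtain ⟨z, w, i, j, hne⟩ := hnc
      refine ⟨Complex.exp (c * z), Complex.exp (c * w), i, j, Complex.exp_ne_zero _,
        Complex.exp_ne_zero _, fun h0 => hne ?_⟩
      rw [← hψ, ← hψ, ← hψ, ← hψ] at h0
      apply mul_left_cancel₀ (mul_ne_zero (hg0 z) (hg0 w))
      linear_combination h0

end Pool.Agent.K9h3.KH
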