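import Pool.Agent.K9h3.KH.D
import Pool.Agent.TH182.VD.Main

/-!
# Surfaces in very general hypersurfaces
-/

set_option autoImplicit false

namespace Pool.Agent.K9h3.KH

open MvPolynomial
open Pool.Agent.K9h84.CI (PP VV CurveIn Nonconst AlgRigid SmoothPair HypEmbedded ForVeryGeneral
  PuncturedCurveIn ExtendsAtZero)

/-- hypersurfaces of degree `≥ 2 n + 2` with independent coefficients contain no images of the
punctured line -/
theorem no_gm (t d : ℕ) (hd : 2 * t + 6 ≤ d) : ∃ K : Subfield ℂ, Countable K ∧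
    ∀ F : PP (t + 1), F.IsHomogeneous d → Pool.Agent.K9h84.CI.Gen K d F →
      ∀ ψ : Fin (t + 4) → Polynomial ℂ,
        (∀ x : ℂ, x ≠ 0 → ∃ j, (ψ j).eval x ≠ 0) →
        (∀ x : ℂ, x ≠ 0 → eval (fun i => (ψ i).eval x) F = 0) →
        ∀ (x' x : ℂ) (i j : Fin (t + 4)), x' ≠ 0 → x ≠ 0 →
          (ψ i).eval x' * (ψ j).eval x = (ψ j).eval x' * (ψ i).eval x := by
  classical
  obtain ⟨K, hK, hmain⟩ := Pool.Agent.TH182.VD.main (N := t + 3) (m := t + 3)
    (fun i : Empty => (i.elim : MvPolynomial (Fin (t + 3 + 1)) ℂ)) (fun i => i.elim) (by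
      have h1 := trdeg_le_of_surjective (R := ℂ)
        (Ideal.Quotient.mkₐ ℂ (Ideal.span (Set.range
          (fun i : Empty => (i.elim : MvPolynomial (Fin (t + 3 + 1)) ℂ)))))
        (Ideal.Quotient.mkₐ_surjective _ _)
      refine h1.trans (le_of_eq ?_)
      rw [MvPolynomial.trdeg_of_isDomain]
      simp)
  refine ⟨K, hK, fun F hF hgen ψ hne hon x' x i j hx' hx => ?_⟩
  by_contra hcon
  refine hmain 1 (fun _ => d) (fun _ => F) (fun _ => hF) ?_ {0} (by
    simp
    omega) ψ ⟨hne, fun y hy => ⟨?_, ?_⟩, x', x, hx', hx, i, j, hcon⟩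
  · let e : (Pool.Agent.TH182.VD.CI (t + 3) (fun _ : Fin 1 => d)) →
        {I : Fin (t + 1 + 3) →₀ ℕ // I.degree = d} := fun y => ⟨y.2.1, y.2.2⟩
    have he : Function.Injective e := by
      rintro ⟨i1, a1⟩ ⟨i2, a2⟩ h12
      obtain rfl : i1 = i2 := Subsingleton.elim _ _
      have h3 : a1.1 = a2.1 := congrArg Subtype.val h12
      rw [Subtype.ext h3]
    exact hgen.comp e he
  · rintro (i | i)
    · exact i.elim
    · exact hon y hy
  · simp

/-- **Surfaces in very general hypersurfaces.** -/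
theorem surfaces (t d : ℕ) (hd : 2 * t + 6 ≤ d) :
    ForVeryGeneral (t + 1) d (fun F => ∀ (R : Fin t → PP (t + 1)) (P Q : PP (t + 1))
      (e : Fin t → ℕ) (a b : ℕ), 1 ≤ a → 1 ≤ b →
      SmoothPair (Fin.cons (α := fun _ => PP (t + 1)) F R) P Q (Fin.cons (α := fun _ => ℕ) d e) a b →
      HypEmbedded (Fin.cons (α := fun _ => PP (t + 1)) F R) P Q ∧
      (∀ f, CurveIn (Fin.cons (α := fun _ => PP (t + 1)) F R) P Q f → ¬ Nonconst f) ∧
      (∀ f, PuncturedCurveIn (Fin.cons (α := fun _ => PP (t + 1)) F R) P Q f →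
        ExtendsAtZero f)) := by
  obtain ⟨K, hK, hgm⟩ := no_gm t d hd
  obtain ⟨N, h1, h2, h3⟩ := Pool.Agent.K9h84.CI.very_general K (t + 1) d
  refine ⟨N, h1, h2, fun F hF hN R P Q e a b ha hb h => ?_⟩
  have hgen := h3 F hN
  have hab : (t + 1) + 4 ≤ a + b + ∑ i, (Fin.cons (α := fun _ => ℕ) d e : Fin (t + 1) → ℕ) i := by
    rw [Fin.sum_univ_succ, Fin.cons_zero]
    omega
  have hal : AlgRigid (Fin.cons (α := fun _ => PP (t + 1)) F R) P Q := by
    intro ψ hψ x' x i j hx' hx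
    refine hgm F hF hgen ψ (fun y hy => ?_) (fun y hy => (hψ y hy).1 0) x' x i j hx' hx
    by_contra hcon
    push Not at hcon
    apply (hψ y hy).2.1
    have h4 : (fun i => (ψ i).eval y) = 0 := funext hcon
    rw [h4]
    exact Pool.Agent.K9h84.CI.hom_zero h.homP ha
  have hyp := (criterion ha hb hab h).2 hal
  exact ⟨hyp, fun f hf => hyp.const h ha hb hab hf, fun f hf => hyp.extends h ha hb hab hf⟩

end Pool.Agent.K9h3.KH
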